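import Pool.Agent.H83.GN.Num

/-!
# The rates of the rows near a point where the class number is not full

`rate_cls`: the entropies of the rows of a coordinate, given any function of the sample, are numbers
of the class, with a monotone function `ρ`. Near a point `P₀` where the derivative of `ρ` is at most
`1 - a` the rows have rates at most `1 - a`, for all large events.
-/

set_option autoImplicit false

namespace Pool.GEN.RC6

open Finset Real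
open Pool.Agent.H49.Ent Pool.Agent.H32.Dense Pool.STK Pool.KA Pool.K2S Pool.PB Pool.S6C

/-- Numbers on a mesh. -/
theorem mesh {f : ℕ → ℝ} {J : ℕ} (hJ : 0 < J) (hf : ∀ k k', k ≤ k' → k' ≤ J → f k ≤ f k')
    {ρ : ℝ → ℝ} {P₀ r a L h η δ c D : ℝ} (hδ : 0 < δ) (hη : 0 ≤ η) (hL : 0 ≤ L)
    (hδr : δ ≤ r) (h0 : 0 ≤ P₀ - 2 * r) (h1 : P₀ + 2 * r ≤ 1) (hD : D ≤ 1 - a) (hD1 : 1 - a ≤ 1)
    (hρ : ∀ x : ℝ, |x - P₀| ≤ 2 * r → |ρ x - c - D * (x - P₀)| ≤ η * r)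
    {N : ℕ} (hN : 2 * r + 2 * δ ≤ N * δ)
    (hm : ∀ j ≤ N, |f ⌊min (P₀ - r - δ + j * δ) (P₀ + r + δ) * J⌋₊ -
      ρ (min (P₀ - r - δ + j * δ) (P₀ + r + δ)) * L * J| ≤ h * J)
    {P Q : ℕ} (hP : (P₀ - r) * J ≤ P) (hPQ : P ≤ Q) (hQ : (Q : ℝ) ≤ (P₀ + r) * J) :
    f Q - f P ≤ (1 - a) * (((Q : ℝ) - P) * L) + (2 * δ + 2 * (η * r)) * L * J + 2 * h * J := by
  have hJR : (0 : ℝ) < J := by exact_mod_cast hJ
  have hPQR : (P : ℝ) ≤ Q := by exact_mod_cast hPQ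
  have hr : 0 < r := hδ.trans_le hδr
  -- the mesh point below `P`
  obtain ⟨j, hj⟩ : ∃ j : ℕ, j = ⌊(P / J - (P₀ - r - δ)) / δ⌋₊ := ⟨_, rfl⟩
  have hP1 : P₀ - r ≤ P / J := by rwa [le_div_iff₀ hJR]
  have hQ1 : (Q : ℝ) / J ≤ P₀ + r := by rwa [div_le_iff₀ hJR]
  have hPQ1 : (P : ℝ) / J ≤ Q / J := div_le_div_of_nonneg_right hPQR hJR.le
  have hpos : 0 ≤ (P / J - (P₀ - r - δ)) / δ := div_nonneg (by linarith) hδ.le
  have hj1 : (j : ℝ) * δ ≤ P / J - (P₀ - r - δ) := by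
    have := Nat.floor_le hpos
    rw [← hj, le_div_iff₀ hδ] at this
    exact this
  have hj2 : P / J - (P₀ - r - δ) < (j + 1) * δ := by
    have := Nat.lt_floor_add_one ((P / J - (P₀ - r - δ)) / δ)
    rw [← hj, div_lt_iff₀ hδ] at this
    exact this
  have hjN : j ≤ N := by
    have h2 : (j : ℝ) * δ ≤ N * δ := by linarith
    have h3 := le_of_mul_le_mul_right h2 hδ
    exact_mod_cast h3
  -- the mesh point above `Q`
  obtain ⟨i, hi⟩ : ∃ i : ℕ, i = ⌈(Q / J - (P₀ - r - δ)) / δ⌉₊ := ⟨_, rfl⟩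
  have hi1 : Q / J - (P₀ - r - δ) ≤ i * δ := by
    have := Nat.le_ceil ((Q / J - (P₀ - r - δ)) / δ)
    rw [← hi, div_le_iff₀ hδ] at this
    exact this
  have hi2 : (i : ℝ) * δ < Q / J - (P₀ - r - δ) + δ := by
    have := Nat.ceil_lt_add_one (div_nonneg (by linarith) hδ.le :
      0 ≤ (Q / J - (P₀ - r - δ)) / δ)
    rw [← hi, ← sub_lt_iff_lt_add, lt_div_iff₀ hδ] at this
    linarith
  have hiN : i ≤ N := by
    have h2 : (i : ℝ) * δ < (N + 1) * δ := by linarith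
    have h3 := lt_of_mul_lt_mul_right h2 hδ.le
    have h4 : (i : ℝ) < ((N + 1 : ℕ) : ℝ) := by push_cast; exact h3
    have h5 : i < N + 1 := by exact_mod_cast h4
    omega
  obtain ⟨x, hx⟩ : ∃ x : ℝ, x = P₀ - r - δ + j * δ := ⟨_, rfl⟩
  obtain ⟨y, hy⟩ : ∃ y : ℝ, y = min (P₀ - r - δ + i * δ) (P₀ + r + δ) := ⟨_, rfl⟩
  have hxP : x ≤ P / J := by linarith
  have hxP' : P / J ≤ x + δ := by linarith
  have hyQ : Q / J ≤ y := by
    rw [hy]
    exact le_min (by linarith) (by linarith)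
  have hyQ' : y ≤ Q / J + δ := by
    rw [hy]
    exact (min_le_left _ _).trans (by linarith)
  have hx0 : P₀ - r - δ ≤ x := by
    rw [hx]
    have : 0 ≤ (j : ℝ) * δ := by positivity
    linarith
  have hy1 : y ≤ P₀ + r + δ := by
    rw [hy]
    exact min_le_right _ _
  have hxmin : min (P₀ - r - δ + j * δ) (P₀ + r + δ) = x := by
    rw [hx]
    exact min_eq_left (by linarith)
  have k1 := hm j hjN
  have k2 := hm i hiN
  rw [hxmin] at k1
  rw [← hy] at k2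
  have m1 : f ⌊x * J⌋₊ ≤ f P := by
    refine hf _ _ (Nat.floor_le_of_le ?_) ?_
    · rw [← le_div_iff₀ hJR]
      exact hxP
    · have h2 : (Q : ℝ) ≤ 1 * J := hQ.trans (mul_le_mul_of_nonneg_right (by linarith) hJR.le)
      rw [one_mul] at h2
      have h3 : Q ≤ J := by exact_mod_cast h2
      exact hPQ.trans h3
  have m2 : f Q ≤ f ⌊y * J⌋₊ := by
    refine hf _ _ (Nat.le_floor ?_) (Nat.floor_le_of_le ?_)
    · rw [← div_le_iff₀ hJR]
      exact hyQ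
    · calc y * J ≤ 1 * J := mul_le_mul_of_nonneg_right (by linarith) hJR.le
        _ = J := one_mul _
  have n1 := (abs_le.1 (hρ x (abs_le.2 ⟨by linarith, by linarith⟩))).1
  have n2 := (abs_le.1 (hρ y (abs_le.2 ⟨by linarith, by linarith⟩))).2
  have hxy : x ≤ y := by linarith
  have n3 : ρ y - ρ x ≤ (1 - a) * (y - x) + 2 * (η * r) := by
    have h2 : D * (y - x) ≤ (1 - a) * (y - x) :=
      mul_le_mul_of_nonneg_right hD (by linarith)
    linarith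
  have n4 : (1 - a) * (y - x) ≤ (1 - a) * ((Q : ℝ) / J - P / J) + 2 * δ := by
    have h2 : (1 - a) * (y - x - ((Q : ℝ) / J - P / J)) ≤ 1 * (2 * δ) := by
      rcases le_total 0 (1 - a) with h3 | h3
      · exact mul_le_mul hD1 (by linarith) (by linarith) zero_le_one
      · have h4 : (1 - a) * (y - x - ((Q : ℝ) / J - P / J)) ≤ 0 :=
          mul_nonpos_of_nonpos_of_nonneg h3 (by linarith)
        linarith
    linarith
  have hLJ : 0 ≤ L * J := mul_nonneg hL hJR.le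
  have n5 := mul_le_mul_of_nonneg_right (n3.trans (by linarith : _ ≤
    (1 - a) * ((Q : ℝ) / J - P / J) + 2 * δ + 2 * (η * r))) hLJ
  have n6 : ((1 - a) * ((Q : ℝ) / J - P / J) + 2 * δ + 2 * (η * r)) * (L * J) =
      (1 - a) * (((Q : ℝ) - P) * L) + (2 * δ + 2 * (η * r)) * L * J := by
    field_simp
    ring
  rw [n6] at n5
  have k1' := (abs_le.1 k1).1
  have k2' := (abs_le.1 k2).2
  nlinarith

end Pool.GEN.RC6

namespace Pool.GEN

open Finset Real Filter Topology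
open Pool.Agent.H49.Ent Pool.Agent.H32.Dense Pool.STK Pool.KA Pool.K2S Pool.PB Pool.S6C Pool.GEN.RC6

variable {m : ℕ}

/-- A statement which holds for the class holds for all large events. -/
theorem Bas.her {S : PCl m} {Φ : Stat m} (h : Bas S Φ) : ∃ τ : ℝ, 0 < τ ∧
    Bas S (fun J F A => ∀ B : F.Ω → Prop, Sub B A → Real.exp (-(τ * J)) * Pe F.p A ≤ Pe F.p B →
      Φ J F B) := by
  obtain ⟨τ, hτ, J₁, h⟩ := h
  refine ⟨τ / 2, half_pos hτ, τ / 2, half_pos hτ, J₁, fun J hJ F A hA B hB hP => ?_⟩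
  refine h J hJ F B ?_
  have h1 := S.res (half_pos hτ).le hA hB hP
  rwa [add_halves] at h1

/-- The rates of the rows near a point, for the members of the class. -/
theorem rate_base {S : PCl m}
    (hpos : ∀ (τ : ℝ) (J : ℕ) (F : Fam m J) (A : F.Ω → Prop), S.St τ J F A → 0 < Pe F.p A)
    {β : ∀ J : ℕ, Fam m J → Type} (Y : ∀ (J : ℕ) (F : Fam m J), F.Ω → β J F) (i₁ : Fin m)
    {ρ : ℝ → ℝ} (hS : ∀ Q : ℝ, 0 ≤ Q → Q ≤ 1 → ∀ h : ℝ, 0 < h → Bas S (fun J F A =>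
      |CH (Pool.Agent.H49.Ent.cond F.p A True) (fun ω => F.X ⌊Q * J⌋₊ ω i₁) (Y J F) -
        ρ Q * Real.log 2 * J| ≤ h * J))
    {P₀ a : ℝ} (h0 : 0 < P₀) (h1 : P₀ < 1) (hd : DifferentiableAt ℝ ρ P₀)
    (ha : 0 ≤ a) (hda : deriv ρ P₀ ≤ 1 - a) {e : ℝ} (he : 0 < e) :
    ∃ r₀ : ℝ, 0 < r₀ ∧ ∀ r : ℝ, 0 < r → r ≤ r₀ → Bas S (fun J F A =>
      ∀ P Q : ℕ, (P₀ - r) * J ≤ P → P ≤ Q → (Q : ℝ) ≤ (P₀ + r) * J →
        CH (Pool.Agent.H49.Ent.cond F.p A True) (fun ω => F.X Q ω i₁)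
          (fun ω => (F.X P ω i₁, Y J F ω)) ≤
          (1 - a) * (((Q : ℝ) - P) * Real.log 2) + e * (r * J)) := by
  classical
  have hl2 : 0 < Real.log 2 := Real.log_pos one_lt_two
  have hl1 : Real.log 2 ≤ 1 := by
    have := Real.log_two_lt_d9
    linarith
  -- the derivative
  obtain ⟨η, hη⟩ : ∃ η : ℝ, η = e / 32 := ⟨_, rfl⟩
  have hη0 : 0 < η := by rw [hη]; positivity
  have hd' := hd.hasDerivAt
  rw [hasDerivAt_iff_isLittleO] at hd'
  have h2 := hd'.def (half_pos hη0)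
  obtain ⟨s, hs0, hs⟩ := Metric.eventually_nhds_iff.1 h2
  obtain ⟨r₀, hr₀⟩ : ∃ r₀ : ℝ, r₀ = min (s / 4) (min (P₀ / 2) ((1 - P₀) / 2)) := ⟨_, rfl⟩
  have hr₀0 : 0 < r₀ := by
    rw [hr₀]
    exact lt_min (by positivity) (lt_min (by positivity) (by linarith))
  refine ⟨r₀, hr₀0, fun r hr hrr => ?_⟩
  have hrs : r ≤ s / 4 := hrr.trans (hr₀ ▸ min_le_left _ _)
  have hrP : r ≤ P₀ / 2 := hrr.trans (hr₀ ▸ (min_le_right _ _).trans (min_le_left _ _))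
  have hrP' : r ≤ (1 - P₀) / 2 := hrr.trans (hr₀ ▸ (min_le_right _ _).trans (min_le_right _ _))
  have hρ : ∀ x : ℝ, |x - P₀| ≤ 2 * r →
      |ρ x - ρ P₀ - deriv ρ P₀ * (x - P₀)| ≤ η * r := by
    intro x hx
    have h3 := hs (y := x) (by rw [Real.dist_eq]; linarith)
    rw [Real.norm_eq_abs, Real.norm_eq_abs, smul_eq_mul, mul_comm (x - P₀)] at h3
    refine h3.trans ?_
    calc η / 2 * |x - P₀| ≤ η / 2 * (2 * r) := mul_le_mul_of_nonneg_left hx (half_pos hη0).le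
      _ = η * r := by ring
  obtain ⟨δ, hδ⟩ : ∃ δ : ℝ, δ = min (e * r / 16) r := ⟨_, rfl⟩
  have hδ0 : 0 < δ := by rw [hδ]; exact lt_min (by positivity) hr
  have hδr : δ ≤ r := by rw [hδ]; exact min_le_right _ _
  have hδe : δ ≤ e * r / 16 := by rw [hδ]; exact min_le_left _ _
  obtain ⟨N, hN⟩ : ∃ N : ℕ, N = ⌈(2 * r + 2 * δ) / δ⌉₊ := ⟨_, rfl⟩
  have hN1 : 2 * r + 2 * δ ≤ N * δ := by
    have := Nat.le_ceil ((2 * r + 2 * δ) / δ)
    rwa [← hN, div_le_iff₀ hδ0] at this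
  obtain ⟨x, hx⟩ : ∃ x : ℕ → ℝ, x = fun j : ℕ => min (P₀ - r - δ + j * δ) (P₀ + r + δ) := ⟨_, rfl⟩
  have hx0 : ∀ j, 0 ≤ x j := by
    intro j
    rw [hx]
    refine le_min ?_ (by linarith)
    have : 0 ≤ (j : ℝ) * δ := by positivity
    linarith
  have hx1 : ∀ j, x j ≤ 1 := by
    intro j
    rw [hx]
    exact (min_le_right _ _).trans (by linarith)
  obtain ⟨h, hh⟩ : ∃ h : ℝ, h = e * r / 16 := ⟨_, rfl⟩
  have hh0 : 0 < h := by rw [hh]; positivity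
  have hpos' : Bas S (fun _ F A => 0 < Pe F.p A) :=
    ⟨1, one_pos, 0, fun J _ F A hA => hpos 1 J F A hA⟩
  refine Bas.mono 1 (hpos'.and (Bas.all (N + 1) fun j _ => hS (x j) (hx0 j) (hx1 j) h hh0)) ?_
  intro J hJ F A hA P Q hP hPQ hQ
  obtain ⟨hA0, hA⟩ := hA
  have hq := isLaw_cond F.isLaw hA0
  have hJR : (0 : ℝ) < J := by exact_mod_cast hJ
  obtain ⟨f, hf⟩ : ∃ f : ℕ → ℝ, f = fun k => CH (Pool.Agent.H49.Ent.cond F.p A True)
    (fun ω => F.X k ω i₁) (Y J F) := ⟨_, rfl⟩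
  have hmono : ∀ k k', k ≤ k' → k' ≤ J → f k ≤ f k' := by
    intro k k' hk _
    obtain ⟨n, rfl⟩ := Nat.exists_eq_add_of_le hk
    rw [hf]
    exact (N83.coord_near hq F.x i₁ (Y J F) k n).1
  have key := mesh (f := f) (by omega : 0 < J) hmono (ρ := ρ) (P₀ := P₀) (r := r) (a := a)
    (L := Real.log 2) (h := h) (η := η) (δ := δ) (c := ρ P₀) (D := deriv ρ P₀) hδ0 hη0.le hl2.le
    hδr (by linarith) (by linarith) hda (by linarith) hρ (N := N) hN1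
    (fun j hj => by
      have h3 := hA j (by omega)
      rw [hx] at h3
      rw [hf]
      exact h3) hP hPQ hQ
  have h5 : CH (Pool.Agent.H49.Ent.cond F.p A True) (fun ω => F.X Q ω i₁)
      (fun ω => (F.X P ω i₁, Y J F ω)) = f Q - f P := by
    have h6 : Det (Pool.Agent.H49.Ent.cond F.p A True) (fun ω => F.X Q ω i₁)
        (fun ω => F.X P ω i₁) := by
      intro ω ω' _ _ h7
      exact congrFun (Pool.STK.B58.fl_fine (x := fun _ : Fin 1 => F.x ω i₁)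
        (y := fun _ : Fin 1 => F.x ω' i₁) hPQ (funext fun _ => h7)) 0
    have h7 := Pool.K2S.Rows.chain_det hq.nonneg (fun ω => F.X Q ω i₁)
      (fun ω => F.X P ω i₁) (Y J F) h6
    rw [hf]
    simp only
    linarith
  rw [h5]
  refine key.trans ?_
  have h8 : (2 * δ + 2 * (η * r)) * Real.log 2 * J + 2 * h * J ≤ e * (r * J) := by
    have h9 : (2 * δ + 2 * (η * r)) * Real.log 2 ≤ (2 * δ + 2 * (η * r)) * 1 :=
      mul_le_mul_of_nonneg_left hl1 (by positivity)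
    have h10 : (2 * δ + 2 * (η * r)) + 2 * h ≤ e * r := by
      rw [hη, hh]
      have : 0 < e * r := by positivity
      linarith
    calc (2 * δ + 2 * (η * r)) * Real.log 2 * J + 2 * h * J
        ≤ (2 * δ + 2 * (η * r)) * 1 * J + 2 * h * J := by
          have := mul_le_mul_of_nonneg_right h9 hJR.le
          linarith
      _ = ((2 * δ + 2 * (η * r)) + 2 * h) * J := by ring
      _ ≤ e * r * J := mul_le_mul_of_nonneg_right h10 hJR.le
      _ = e * (r * J) := by ring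
  linarith

/-- **Rates of the rows near a point**, for the laws of the class and all large events. `ρ` are
the class numbers of the rows of the coordinate `i₁` given `Y`. -/
theorem rate_cls {S : PCl m}
    (hpos : ∀ (τ : ℝ) (J : ℕ) (F : Fam m J) (A : F.Ω → Prop), S.St τ J F A → 0 < Pe F.p A)
    {β : ∀ J : ℕ, Fam m J → Type} (Y : ∀ (J : ℕ) (F : Fam m J), F.Ω → β J F) (i₁ : Fin m)
    {ρ : ℝ → ℝ} (hS : ∀ Q : ℝ, 0 ≤ Q → Q ≤ 1 → ∀ h : ℝ, 0 < h → Bas S (fun J F A =>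
      |CH (Pool.Agent.H49.Ent.cond F.p A True) (fun ω => F.X ⌊Q * J⌋₊ ω i₁) (Y J F) -
        ρ Q * Real.log 2 * J| ≤ h * J))
    {P₀ a : ℝ} (h0 : 0 < P₀) (h1 : P₀ < 1) (hd : DifferentiableAt ℝ ρ P₀)
    (ha : 0 ≤ a) (hda : deriv ρ P₀ ≤ 1 - a) {e : ℝ} (he : 0 < e) :
    ∃ r₀ : ℝ, 0 < r₀ ∧ ∀ r : ℝ, 0 < r → r ≤ r₀ → ∃ τ : ℝ, 0 < τ ∧ Bas S (fun J F A =>
      ∀ B : F.Ω → Prop, Sub B A → Real.exp (-(τ * J)) * Pe F.p A ≤ Pe F.p B →
      ∀ P Q : ℕ, (P₀ - r) * J ≤ P → P ≤ Q → (Q : ℝ) ≤ (P₀ + r) * J →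
        CH (Pool.Agent.H49.Ent.cond F.p B True) (fun ω => F.X Q ω i₁)
          (fun ω => (F.X P ω i₁, Y J F ω)) ≤
          (1 - a) * (((Q : ℝ) - P) * Real.log 2) + e * (r * J)) := by
  obtain ⟨r₀, hr₀, h⟩ := rate_base hpos Y i₁ hS h0 h1 hd ha hda he
  exact ⟨r₀, hr₀, fun r hr hrr => Bas.her (h r hr hrr)⟩

/-- The vertical of a member of the class is the condition of `rate_cls` in the form used by the
rows of a family: all the coordinates except `i₁` to `J` digits, and the side information. -/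
theorem rate_fam {S : PCl m}
    (hpos : ∀ (τ : ℝ) (J : ℕ) (F : Fam m J) (A : F.Ω → Prop), S.St τ J F A → 0 < Pe F.p A)
    (i₁ : Fin m)
    {ρ : ℝ → ℝ} (hS : ∀ Q : ℝ, 0 ≤ Q → Q ≤ 1 → ∀ h : ℝ, 0 < h → Bas S (fun J F A =>
      |CH (Pool.Agent.H49.Ent.cond F.p A True) (fun ω => F.X ⌊Q * J⌋₊ ω i₁)
        (fun ω => (Function.update (ptr F J ω).1 i₁ 0, (ptr F J ω).2)) -
        ρ Q * Real.log 2 * J| ≤ h * J))
    {P₀ a : ℝ} (h0 : 0 < P₀) (h1 : P₀ < 1) (hd : DifferentiableAt ℝ ρ P₀)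
    (ha : 0 ≤ a) (hda : deriv ρ P₀ ≤ 1 - a) {e : ℝ} (he : 0 < e) :
    ∃ r₀ : ℝ, 0 < r₀ ∧ ∀ r : ℝ, 0 < r → r ≤ r₀ → ∃ τ : ℝ, 0 < τ ∧ Bas S (fun J F A =>
      ∀ B : F.Ω → Prop, Sub B A → Real.exp (-(τ * J)) * Pe F.p A ≤ Pe F.p B →
      ∀ P Q : ℕ, (P₀ - r) * J ≤ P → P ≤ Q → (Q : ℝ) ≤ (P₀ + r) * J →
        CH (Pool.Agent.H49.Ent.cond F.p B True) (fun ω => F.X Q ω i₁)
          (fun ω => (F.X P ω i₁, (Function.update (F.X J ω) i₁ 0, F.W ω))) ≤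
          (1 - a) * (((Q : ℝ) - P) * Real.log 2) + e * (r * J)) :=
  rate_cls hpos (fun J F ω => (Function.update (ptr F J ω).1 i₁ 0, (ptr F J ω).2)) i₁ hS h0 h1 hd
    ha hda he

end Pool.GEN
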