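import Pool.Agent.H64.STAT.Rows
import Pool.Agent.H87.STAT.Flw2
import Pool.Agent.H90.STAT.Spl

/-!
# The weighted core: rows FLW1, FLW5

The vector field lowers the weight by one, so the end point of a walk is homogeneous in the lengths
of the legs; the walk begins with the flow of its first leg.
-/

set_option autoImplicit false

namespace Pool.STAT

open Finset MvPolynomial
open Pool.BFL (Pl CB)

variable {c : ℕ} {d : Fin c → ℕ} {ξ : Fin c → Pl c}

/-- The derivation of a monomial. -/
theorem lie_monomial_wh (hd : ∀ i, 1 ≤ d i) (hξ : VF d ξ) (e : Fin c →₀ ℕ) (a : ℝ) {n : ℕ}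
    (he : Finsupp.weight d e = n + 1) : (lie ξ (monomial e a)).IsWeightedHomogeneous d n := by
  classical
  rw [FLW2.lie_apply]
  refine IsWeightedHomogeneous.sum (s := Finset.univ) (fun i => ξ i * pderiv i (monomial e a)) n
    fun i _ => ?_
  rw [pderiv_monomial]
  by_cases hi : e i = 0
  · rw [hi, Nat.cast_zero, mul_zero, map_zero, mul_zero]
    exact isWeightedHomogeneous_zero _ _ _
  · have h1 : Finsupp.weight d (e - Finsupp.single i 1) + d i = n + 1 := by
      rw [← he]
      have h2 : e = (e - Finsupp.single i 1) + Finsupp.single i 1 := by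
        ext k
        rw [Finsupp.add_apply, Finsupp.tsub_apply]
        by_cases hk : i = k
        · subst hk
          rw [Finsupp.single_eq_same]
          omega
        · rw [Finsupp.single_eq_of_ne (Ne.symm hk)]
          omega
      conv_rhs => rw [h2]
      rw [map_add, Finsupp.weight_single, one_smul]
    have h3 := (hξ i).mul (isWeightedHomogeneous_monomial d (e - Finsupp.single i 1)
      (a * (e i : ℝ)) (m := Finsupp.weight d (e - Finsupp.single i 1)) rfl)
    have h4 : d i - 1 + Finsupp.weight d (e - Finsupp.single i 1) = n := by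
      have := hd i
      omega
    rw [h4] at h3
    exact h3

/-- The derivation lowers the weight by one. -/
theorem lie_wh (hd : ∀ i, 1 ≤ d i) (hξ : VF d ξ) {P : Pl c} {n : ℕ}
    (hP : P.IsWeightedHomogeneous d (n + 1)) : (lie ξ P).IsWeightedHomogeneous d n := by
  classical
  rw [P.as_sum, map_sum]
  refine IsWeightedHomogeneous.sum (s := P.support) (fun e => lie ξ (monomial e (coeff e P))) n
    fun e he => ?_
  exact lie_monomial_wh hd hξ e _ (hP (mem_support_iff.1 he))

/-- Iterates of the derivation. -/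
theorem lie_iter_wh (hd : ∀ i, 1 ≤ d i) (hξ : VF d ξ) (r : ℕ) :
    ∀ {P : Pl c} {n : ℕ}, P.IsWeightedHomogeneous d n → r ≤ n →
      ((lie ξ)^[r] P).IsWeightedHomogeneous d (n - r) := by
  induction r with
  | zero =>
    intro P n hP _
    exact hP
  | succ r ih =>
    intro P n hP hr
    obtain ⟨k, rfl⟩ : ∃ k, n = k + 1 := ⟨n - 1, by omega⟩
    rw [Function.iterate_succ_apply]
    have h1 := ih (lie_wh hd hξ hP) (by omega : r ≤ k)
    have h2 : k + 1 - (r + 1) = k - r := by omega
    rw [h2]
    exact h1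

/-- Substitution of homogeneous polynomials. -/
theorem bind_homogeneous {M : ℕ} {π : Fin c → Pl M} (hπ : ∀ k, (π k).IsHomogeneous (d k))
    {P : Pl c} {n : ℕ} (hP : P.IsWeightedHomogeneous d n) : (bind₁ π P).IsHomogeneous n := by
  classical
  rw [P.as_sum, map_sum]
  refine IsHomogeneous.sum (s := P.support) (fun e => bind₁ π (monomial e (coeff e P))) n
    fun e he => ?_
  have h1 := bind_monomial d π hπ e (coeff e P)
  rwa [hP (mem_support_iff.1 he)] at h1

/-- One leg of the walk. -/
theorem leg_homogeneous (hd : ∀ i, 1 ≤ d i) (hξ : VF d ξ) {N : ℕ} {π : Fin c → Pl N}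
    (hπ : ∀ k, (π k).IsHomogeneous (d k)) {P : Pl c} {n : ℕ} (hP : P.IsWeightedHomogeneous d n)
    (a : ℝ) {r : ℕ} (hr : r ≤ n) (e : ℕ) :
    (C a * X 0 ^ (r + e) * bind₁ (fun k => rename Fin.succ (π k)) ((lie ξ)^[r] P) :
      Pl (N + 1)).IsHomogeneous (n + e) := by
  have h1 : ∀ k, (rename Fin.succ (π k) : Pl (N + 1)).IsHomogeneous (d k) := fun k =>
    (hπ k).rename_isHomogeneous
  have h2 := bind_homogeneous h1 (lie_iter_wh hd hξ r hP hr)
  have h3 : (X 0 ^ (r + e) : Pl (N + 1)).IsHomogeneous (r + e) := isHomogeneous_X_pow _ _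
  have h4 := (h3.C_mul a).mul h2
  have h5 : r + e + (n - r) = n + e := by omega
  rwa [h5] at h4

theorem wT_homogeneous (hd : ∀ i, 1 ≤ d i) : ∀ (N : ℕ) (ξ : Fin N → Fin c → Pl c),
    (∀ a, VF d (ξ a)) → ∀ i, (wT d N ξ i).IsHomogeneous (d i) := by
  intro N
  induction N with
  | zero =>
    intro ξ _ i
    exact isHomogeneous_zero _ _ _
  | succ N ih =>
    intro ξ hξ i
    have h1 := ih (fun a => ξ a.succ) (fun a => hξ a.succ)
    refine IsHomogeneous.sum (s := range (d i + 1)) _ (d i) fun r hr => ?_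
    have h2 : (X i : Pl c).IsWeightedHomogeneous d (d i) := isWeightedHomogeneous_X _ _ _
    exact leg_homogeneous hd (hξ 0) h1 h2 _ (by rw [mem_range] at hr; omega) 0

theorem wH_homogeneous (hd : ∀ i, 1 ≤ d i) {j : ℕ} (hj : 1 ≤ j) :
    ∀ (N : ℕ) (ξ : Fin N → Fin c → Pl c) (b : Fin N → Pl c), (∀ a, VF d (ξ a)) →
      (∀ a, (b a).IsWeightedHomogeneous d (j - 1)) → (wH d j N ξ b).IsHomogeneous j := by
  intro N
  induction N with
  | zero =>
    intro ξ b _ _
    exact isHomogeneous_zero _ _ _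
  | succ N ih =>
    intro ξ b hξ hb
    have h1 := wT_homogeneous hd N (fun a => ξ a.succ) (fun a => hξ a.succ)
    have h2 := ih (fun a => ξ a.succ) (fun a => b a.succ) (fun a => hξ a.succ) fun a => hb a.succ
    refine IsHomogeneous.add h2.rename_isHomogeneous ?_
    refine IsHomogeneous.sum (s := range j) _ j fun r hr => ?_
    have h3 := leg_homogeneous hd (hξ 0) h1 (hb 0) (1 / ((r + 1).factorial : ℝ))
      (by rw [mem_range] at hr; omega : r ≤ j - 1) 1
    have h4 : j - 1 + 1 = j := by omega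
    rwa [h4] at h3

/-- **Row FLW1.** -/
theorem flw1_thm : Flw1Stmt := fun _ _ N _ ξ b hd hj hξ hb =>
  ⟨wT_homogeneous hd N ξ hξ, wH_homogeneous hd hj N ξ b hξ hb⟩

/-- **Row FLW5.** -/
theorem flw5_thm : Flw5Stmt := fun _ _ _ d ξ b s =>
  ⟨fun i => wT_val (d := d) ξ s i, wH_val (d := d) _ ξ b s⟩

end Pool.STAT
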