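import Pool.Agent.H6.STAT.Trp

/-!
# Layer 2 of the weighted core: row 116 TRP (transport), assembly
-/

set_option autoImplicit false

namespace Pool.STAT

open Finset MvPolynomial
open Pool.Agent.H49.Ent Pool.Agent.H32.Dense Pool.STK Pool.KS3
open Pool.BFL (Pl CB Pb P2 MC alt)

namespace T6

/-- Products of powers. -/
theorem kr_le {K N : ℕ} {R : ℝ} (hR : 1 ≤ R) (h : K ≤ N) : (K : ℝ) * R ^ K ≤ K * R ^ N :=
  mul_le_mul_of_nonneg_left (pow_le_pow_right₀ hR h) (Nat.cast_nonneg _)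

/-- The heights of the samples. -/
theorem own_bd {D : NDat} {n K J z M : ℕ} {σ : ℕ → ℝ} {κ C₁ : ℝ} {q : D.Ω → ℝ} (hC₁ : 1 ≤ C₁)
    (hOk : D.Ok n K J z M σ κ C₁ q) {v : ℕ} (hv : v ≤ M) {ω : D.Ω} (hω : 0 < q ω) :
    (∀ i : Fin n, |(D.pT v ω : Fin n → ℝ) i| ≤ 1) ∧
      ∀ d : ℕ → ℕ, σ n = d n → |D.pN d z v n ω| ≤ Real.exp (C₁ * z) := by
  constructor
  · intro i
    have h1 := hOk.hgt v hv ω hω i i.2.le
    unfold NDat.pT
    rw [abs_mul, abs_of_pos (by positivity : (0 : ℝ) < 2 ^ D.g v i)]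
    calc (2 : ℝ) ^ D.g v i * |D.rh v ω i| ≤ 2 ^ D.g v i * (1 / 2 ^ D.g v i) :=
        mul_le_mul_of_nonneg_left h1 (by positivity)
      _ = 1 := by field_simp
  · intro d hdn
    have h1 := hOk.hgt v hv ω hω n le_rfl
    have h2 := hOk.hom v hv n le_rfl
    rw [hdn] at h2
    have h3 := (abs_le.1 h2).1
    unfold NDat.pN
    rw [abs_mul, abs_of_pos (by positivity : (0 : ℝ) < 2 ^ (d n * (v * z)))]
    have h4 : (2 : ℝ) ^ (d n * (v * z)) * (1 / 2 ^ D.g v n) ≤ Real.exp (C₁ * z) := by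
      have h5 : (2 : ℝ) ^ (d n * (v * z)) = Real.exp (((d n * (v * z) : ℕ) : ℝ) * Real.log 2) := by
        rw [Real.exp_nat_mul, Real.exp_log (by norm_num)]
      have h6 : (1 : ℝ) / 2 ^ D.g v n = Real.exp (-((D.g v n : ℝ) * Real.log 2)) := by
        rw [Real.exp_neg, Real.exp_nat_mul, Real.exp_log (by norm_num), one_div]
      rw [h5, h6, ← Real.exp_add]
      refine Real.exp_le_exp.2 ?_
      have hl0 : 0 < Real.log 2 := Real.log_pos (by norm_num)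
      have hl1 : Real.log 2 ≤ 1 := by
        have := Real.log_le_sub_one_of_pos (show (0 : ℝ) < 2 by norm_num)
        linarith
      have h7 : ((d n * (v * z) : ℕ) : ℝ) - D.g v n ≤ C₁ * z := by
        push_cast
        linarith
      have hz0 : 0 ≤ C₁ * z := by positivity
      calc ((d n * (v * z) : ℕ) : ℝ) * Real.log 2 + -((D.g v n : ℝ) * Real.log 2)
          = (((d n * (v * z) : ℕ) : ℝ) - D.g v n) * Real.log 2 := by ring
        _ ≤ (C₁ * z) * Real.log 2 := mul_le_mul_of_nonneg_right h7 hl0.le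
        _ ≤ C₁ * z := mul_le_of_le_one_right hz0 hl1
    exact (mul_le_mul_of_nonneg_left h1 (by positivity)).trans h4

end T6

open T6 in
/-- **Row TRP.** -/
theorem trp_of (hA : AdxStmt) (hO : OdeStmt) (hB : FlbStmt) (hZ : FrzStmt) (hN : NatStmt)
    (hC : CptStmt) : TrpStmt := by
  intro n K d C₁ C₅ hd0 hd hC₁ hC₅
  obtain ⟨KB, hKB⟩ := hB n K d hd0 hd
  refine ⟨max 1 (KB + KB * C₅), le_max_left _ _, fun C₂ hC₂ => ?_⟩
  have hC₂1 : 1 ≤ C₂ := (le_max_left _ _).trans hC₂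
  have hC₂2 : (KB : ℝ) + KB * C₅ ≤ C₂ := (le_max_right _ _).trans hC₂
  obtain ⟨CC, hCC1, hCC⟩ := hC n K d C₁ C₂ hd0 hd hC₁ hC₂1
  obtain ⟨CN, hCN1, hCN⟩ := nat4 hN n K d C₁ C₂ hd0 hd hC₁ hC₂1
  obtain ⟨KZ, hKZ⟩ := hZ n (d n) (fun i : Fin n => d i) (fun i => hd i) (hd n)
  obtain ⟨K4, hK4⟩ := flw4_thm n (d n) (fun i : Fin n => d i) (fun i => hd i) (hd n)
  obtain ⟨KT, hKT⟩ := flow_time n (d n) (fun i : Fin n => d i) (fun i => hd i) (hd n)
  obtain ⟨A, hAdef⟩ : ∃ A : ℝ, A = C₁ + C₂ + CC + CN + 3 := ⟨_, rfl⟩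
  obtain ⟨N, hNdef⟩ : ∃ N : ℕ, N = KZ + K4 + KT + 2 := ⟨_, rfl⟩
  have hA7 : 7 ≤ A := by linarith
  have hN2 : (2 : ℝ) ≤ N := by
    have : 2 ≤ N := by omega
    exact_mod_cast this
  have hC₃1 : 1 ≤ A * (N + 1) + N := by nlinarith
  refine ⟨A * (N + 1) + N, hC₃1, fun U M hU => ?_⟩
  obtain ⟨z₁, hz₁⟩ := hCC U M
  obtain ⟨z₂, hz₂⟩ := hCN U M
  refine ⟨max (max z₁ z₂) 3, fun J z k κ D q hz hOk hkM ω ω' hω hω' hwn hJ hJ' hLG y hy => ?_⟩
  have hzz₁ : z₁ ≤ z := ((le_max_left _ _).trans (le_max_left _ _)).trans hz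
  have hzz₂ : z₂ ≤ z := ((le_max_right _ _).trans (le_max_left _ _)).trans hz
  have hz3 : 3 ≤ z := (le_max_right _ _).trans hz
  have hz3' : (3 : ℝ) ≤ z := by exact_mod_cast hz3
  intro s ξ b θ
  -- the same line and the same label of the level `k + U`
  have hln : D.ln ω = D.ln ω' := congrArg Prod.fst hwn
  have hTT : D.T ω / 2 ^ (J - (k + U) * z) = D.T ω' / 2 ^ (J - (k + U) * z) :=
    congrArg Prod.snd hwn
  have hcl : D.c (k + U) ω = D.c (k + U) ω' :=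
    hOk.c_wn (k + U) (by omega) ω ω' hω hω' hwn
  have hmin : min (k + U) (k + 3 * U) = k + U := by omega
  have hab : D.ab (k + U) (D.cs (k + 3 * U) ω') y = D.ab (k + U) (D.cs (k + 3 * U) ω) y := by
    unfold NDat.ab NDat.cs
    rw [hmin, hcl]
  -- constants
  obtain ⟨R, hRdef⟩ : ∃ R : ℝ, R = Real.exp (A * z) := ⟨_, rfl⟩
  obtain ⟨B, hBdef⟩ : ∃ B : ℝ, B = Real.exp ((A - 3) * z) := ⟨_, rfl⟩
  have hB1 : 1 ≤ B := by
    rw [hBdef]
    exact Real.one_le_exp (by nlinarith)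
  have hBR : 8 * B ≤ R := by
    rw [hRdef, hBdef]
    have h1 : A * z = 3 * z + (A - 3) * z := by ring
    rw [h1, Real.exp_add]
    refine mul_le_mul_of_nonneg_right ?_ (Real.exp_pos _).le
    have := Real.add_one_le_exp (3 * (z : ℝ))
    linarith
  have hR1 : 1 ≤ R := by linarith
  have hexp : ∀ c : ℝ, c ≤ A - 3 → Real.exp (c * z) ≤ B := fun c hc => by
    rw [hBdef]
    exact Real.exp_le_exp.2 (mul_le_mul_of_nonneg_right hc (Nat.cast_nonneg _))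
  have hEN : Real.exp (CN * z) ≤ B := hexp _ (by linarith)
  have hEC : Real.exp (CC * z) ≤ B := hexp _ (by linarith)
  have hE1 : Real.exp (C₁ * z) ≤ B := hexp _ (by linarith)
  have hE2 : Real.exp (C₂ * z) ≤ B := hexp _ (by linarith)
  obtain ⟨p, hpdef⟩ : ∃ p : ℝ, p = (2 : ℝ) ^ (U * z) := ⟨_, rfl⟩
  have hp0 : 0 < p := by rw [hpdef]; positivity
  have hp1 : 1 ≤ p := by rw [hpdef]; exact one_le_pow₀ (by norm_num)
  obtain ⟨Λ, hΛdef⟩ : ∃ Λ : ℝ, Λ = (2 : ℝ) ^ ((k + U) * z) := ⟨_, rfl⟩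
  have hΛ0 : 0 < Λ := by rw [hΛdef]; positivity
  have hpΛ : p ≤ Λ := by
    rw [hpdef, hΛdef]
    exact pow_le_pow_right₀ (by norm_num) (Nat.mul_le_mul_right _ (by omega))
  obtain ⟨ε, hεdef⟩ : ∃ ε : ℝ, ε = R / p := ⟨_, rfl⟩
  have hε0 : 0 ≤ ε := by rw [hεdef]; positivity
  have hdiv : ∀ x : ℝ, x ≤ R → x / p ≤ ε := fun x hx => by
    rw [hεdef]
    exact div_le_div_of_nonneg_right hx hp0.le
  -- the final constant
  have hfin : (N : ℝ) * R ^ N * ε ≤ Real.exp ((A * (N + 1) + N) * z) / 2 ^ (U * z) := by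
    rw [← hpdef, hεdef, ← mul_div_assoc]
    refine div_le_div_of_nonneg_right ?_ hp0.le
    rw [mul_assoc, ← pow_succ, hRdef, ← Real.exp_nat_mul]
    have h1 : (N : ℝ) ≤ Real.exp (N * z) := by
      have h2 := Real.add_one_le_exp ((N : ℝ) * z)
      nlinarith
    calc (N : ℝ) * Real.exp (((N + 1 : ℕ) : ℝ) * (A * z))
        ≤ Real.exp (N * z) * Real.exp (((N + 1 : ℕ) : ℝ) * (A * z)) :=
          mul_le_mul_of_nonneg_right h1 (Real.exp_pos _).le
      _ = Real.exp ((A * (N + 1) + N) * z) := by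
          rw [← Real.exp_add]
          congr 1
          push_cast
          ring
  -- the times
  have hvJ : (k + U) * z ≤ (k + 3 * U) * z := Nat.mul_le_mul_right _ (by omega)
  have hwJ : (k + 3 * U) * z ≤ J := by
    refine le_trans (Nat.mul_le_mul_right _ ?_) hOk.top
    omega
  obtain ⟨hs1, hr1, hrs⟩ := tm_two hvJ hwJ hTT
  have hexp2 : (k + 3 * U) * z - (k + U) * z = 2 * U * z := by
    rw [← Nat.sub_mul]
    congr 1
    omega
  rw [hexp2] at hr1 hrs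
  obtain ⟨t, htdef⟩ : ∃ t : ℝ, t = D.X ω 0 := ⟨_, rfl⟩
  obtain ⟨t', htdef'⟩ : ∃ t' : ℝ, t' = D.X ω' 0 := ⟨_, rfl⟩
  rw [← hOk.X_zero ω, ← hOk.X_zero ω', ← htdef, ← htdef', ← hΛdef] at hs1 hrs
  obtain ⟨S, hSdef⟩ : ∃ S : ℝ, S = (t' - t) * Λ := ⟨_, rfl⟩
  rw [← hSdef] at hs1 hrs
  have hs_eq : s = ((((D.T ω' / 2 ^ (J - (k + 3 * U) * z) : ℕ) : ℤ) -
      ((D.T ω / 2 ^ (J - (k + 3 * U) * z) : ℕ) : ℤ) : ℤ) : ℝ) / 2 ^ (2 * U * z) := rfl
  rw [← hs_eq] at hr1 hrs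
  have hrs2 : |s - S| ≤ ε := by
    refine hrs.trans (le_trans ?_ (hdiv 1 hR1))
    refine one_div_le_one_div_of_le hp0 ?_
    rw [hpdef]
    exact pow_le_pow_right₀ (by norm_num) (Nat.mul_le_mul_right _ (by omega))
  -- times in the unit interval
  have htI : ∀ ω : D.Ω, D.X ω 0 ∈ Set.Icc (0 : ℝ) 1 := fun ω => by
    rw [hOk.X_zero ω]
    have h1 : (D.T ω : ℝ) < 2 ^ J := by exact_mod_cast hOk.T_lt ω
    exact ⟨by positivity, (div_le_one (by positivity)).2 h1.le⟩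
  have ht01 : t ∈ Set.Icc (0 : ℝ) 1 := htdef ▸ htI ω
  have ht01' : t' ∈ Set.Icc (0 : ℝ) 1 := htdef' ▸ htI ω'
  have hxI : ∀ x ∈ Set.uIcc 0 S, t + x / Λ ∈ Set.Icc (0 : ℝ) 1 ∧ |x| ≤ 1 := by
    intro x hx
    have hSΛ : S / Λ = t' - t := by rw [hSdef]; field_simp
    rcases le_total 0 S with h0 | h0
    · rw [Set.uIcc_of_le h0] at hx
      have h1 : 0 ≤ x / Λ := div_nonneg hx.1 hΛ0.le
      have h2 : x / Λ ≤ t' - t := by
        rw [← hSΛ]
        exact div_le_div_of_nonneg_right hx.2 hΛ0.le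
      refine ⟨⟨by linarith [ht01.1], by linarith [ht01'.2]⟩, ?_⟩
      rw [abs_of_nonneg hx.1]
      exact hx.2.trans ((le_abs_self S).trans hs1)
    · rw [Set.uIcc_of_ge h0] at hx
      have h1 : x / Λ ≤ 0 := div_nonpos_of_nonpos_of_nonneg hx.2 hΛ0.le
      have h2 : t' - t ≤ x / Λ := by
        rw [← hSΛ]
        exact div_le_div_of_nonneg_right hx.1 hΛ0.le
      refine ⟨⟨by linarith [ht01'.1], by linarith [ht01.2]⟩, ?_⟩
      rw [abs_of_nonpos hx.2]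
      exact (neg_le_neg hx.1).trans ((neg_le_abs S).trans hs1)
  -- the line
  obtain ⟨Φ, hΦdef⟩ : ∃ Φ : ℕ → PN, Φ = D.R (D.ln ω) := ⟨_, rfl⟩
  have hΦtri : TriN (atT 0 Φ) := triN_atT_of (hΦdef ▸ hOk.R_tri _) 0
  have hΦdeg : ∀ i ≤ n, (atT 0 Φ i).totalDegree ≤ K := by
    intro i _
    by_cases hi : i = 0
    · subst hi
      rw [atT, Function.update_self, totalDegree_C]
      exact Nat.zero_le _
    · rw [atT, Function.update_of_ne hi, hΦdef]
      exact hOk.R_deg _ i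
  have hRt : D.Rt ω = atT t Φ := by rw [NDat.Rt, hΦdef, htdef]
  have hRt' : D.Rt ω' = atT t' Φ := by rw [NDat.Rt, hΦdef, htdef', hln]
  have hR5 : 1 ≤ Real.exp (C₅ * z) := Real.one_le_exp (by positivity)
  obtain ⟨hF1, hF2⟩ := hKB Φ (Real.exp (C₅ * z)) hΦtri hΦdeg hR5 fun t ht i hi => by
    rw [hΦdef]
    exact hLG t ht i hi
  have hKB2 : (KB : ℝ) * Real.exp (C₅ * z) ^ KB ≤ Real.exp (C₂ * z) := by
    rw [← Real.exp_nat_mul]
    have h1 : (KB : ℝ) ≤ Real.exp (KB * z) := by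
      have h2 := Real.add_one_le_exp ((KB : ℝ) * z)
      have h3 : (0 : ℝ) ≤ KB := Nat.cast_nonneg _
      nlinarith
    calc (KB : ℝ) * Real.exp (KB * (C₅ * z)) ≤ Real.exp (KB * z) * Real.exp (KB * (C₅ * z)) :=
        mul_le_mul_of_nonneg_right h1 (Real.exp_pos _).le
      _ = Real.exp ((KB + KB * C₅) * z) := by
          rw [← Real.exp_add]
          congr 1
          ring
      _ ≤ Real.exp (C₂ * z) :=
          Real.exp_le_exp.2 (mul_le_mul_of_nonneg_right hC₂2 (Nat.cast_nonneg _))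
  have hfld : ∀ T i, i ≤ n → (fld d (atT T Φ) i).vars ⊆ range n ∧
      (fld d (atT T Φ) i).IsWeightedHomogeneous d (d i - 1) := by
    intro T i hi
    obtain ⟨-, -, -, -, -, h6, h7, -⟩ := hA.2 d _ hd0 hd (triN_atT hΦtri T)
    exact ⟨(h6 i).trans (Finset.range_subset_range.2 hi), h7 i⟩
  have hco : ∀ i ≤ n, ∀ e, |(fld d (D.Rt ω) i).coeff e| ≤ Real.exp (C₂ * z) := by
    intro i hi e
    rw [hRt]
    exact (coeff_le_nrm d _ e).trans ((hF1 t ht01 i hi).trans hKB2)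
  have hvf : ∀ i ≤ n, D.vf d z (U + 1) C₂ n ω i =
      rnd ((2 : ℝ) ^ ((U + 1) * z)) (Real.exp (C₂ * z)) (fld d (D.Rt ω) i) := fun i hi => by
    unfold NDat.vf
    rw [if_pos hi]
  have h2U : (1 : ℝ) ≤ 2 ^ ((U + 1) * z) := one_le_pow₀ (by norm_num)
  have hpU : p ≤ (2 : ℝ) ^ ((U + 1) * z) := by
    rw [hpdef]
    exact pow_le_pow_right₀ (by norm_num) (Nat.mul_le_mul_right _ (by omega))
  have hvfv : ∀ i ≤ n, (D.vf d z (U + 1) C₂ n ω i).vars ⊆ range n := fun i hi => by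
    rw [hvf i hi, hRt]
    exact rnd_vars (hfld t i hi).1
  have hvfh : ∀ i ≤ n, (D.vf d z (U + 1) C₂ n ω i).IsWeightedHomogeneous d (d i - 1) :=
    fun i hi => by
      rw [hvf i hi, hRt]
      exact rnd_wh (hfld t i hi).2
  have hvfc0 : ∀ i ≤ n, ∀ e, |(D.vf d z (U + 1) C₂ n ω i).coeff e| ≤ Real.exp (C₂ * z) + 1 :=
    fun i hi e => by
      rw [hvf i hi]
      exact rnd_le h2U (Real.exp_pos (C₂ * z)).le (fld d (D.Rt ω) i) e
  have hvfc : ∀ i ≤ n, ∀ e, |(D.vf d z (U + 1) C₂ n ω i).coeff e| ≤ 2 * B := fun i hi e => by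
    have := hvfc0 i hi e
    linarith
  have hRS : Real.exp (C₂ * z) + 1 ≤ Real.exp ((C₂ + 1) * z) := by
    have h1 : (C₂ + 1) * z = z + C₂ * z := by ring
    rw [h1, Real.exp_add]
    have h2 := Real.add_one_le_exp (z : ℝ)
    have h3 : 1 ≤ Real.exp (C₂ * z) := Real.one_le_exp (by positivity)
    nlinarith
  have hξ : ξ = fun i : Fin n => toF n (D.vf d z (U + 1) C₂ n ω i) :=
    vfT_eq (fun i hi => hvfv i hi.le) (fun i hi => hvfh i hi.le) fun i hi e =>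
      (hvfc0 i hi.le e).trans hRS
  have hb : b = toF n (D.vf d z (U + 1) C₂ n ω n) :=
    vfN_eq (hvfv n le_rfl) (hvfh n le_rfl) fun e => (hvfc0 n le_rfl e).trans hRS
  have hξVF : VF (fun l : Fin n => d l) ξ := vfT_vf d _ _
  have hbWH : b.IsWeightedHomogeneous (fun l : Fin n => d l) (d n - 1) := vfN_wh d _ _
  have hξR : ∀ i, CB (ξ i) R := fun i => by
    rw [hξ]
    exact toF_cb (hvfv i i.2.le) fun e => (hvfc i i.2.le e).trans (by linarith)
  have hbR : CB b R := by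
    rw [hb]
    exact toF_cb (hvfv n le_rfl) fun e => (hvfc n le_rfl e).trans (by linarith)
  -- closeness of the fields
  have hclo : ∀ x ∈ Set.uIcc 0 S, ∀ i ≤ n, ∀ e,
      |(fld d (atT (t + x / Λ) Φ) i).coeff e - (D.vf d z (U + 1) C₂ n ω i).coeff e| ≤ ε := by
    intro x hx i hi e
    obtain ⟨hx1, hx2⟩ := hxI x hx
    have h1 := (coeff_sub_le_nrm d (fld d (atT (t + x / Λ) Φ) i) (fld d (atT t Φ) i) e).trans
      (hF2 t ht01 (t + x / Λ) hx1 i hi)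
    have h2 : |t + x / Λ - t| ≤ 1 / p := by
      rw [add_sub_cancel_left, abs_div, abs_of_pos hΛ0]
      exact div_le_div₀ zero_le_one hx2 hp0 hpΛ
    have h3 : |(fld d (atT t Φ) i).coeff e - (D.vf d z (U + 1) C₂ n ω i).coeff e| ≤ 1 / p := by
      rw [abs_sub_comm, hvf i hi, ← hRt]
      refine (rnd_close (by linarith) (hco i hi) e).trans ?_
      exact one_div_le_one_div_of_le hp0 hpU
    have h4 := abs_sub_le ((fld d (atT (t + x / Λ) Φ) i).coeff e) ((fld d (atT t Φ) i).coeff e)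
      ((D.vf d z (U + 1) C₂ n ω i).coeff e)
    have h5 : (KB : ℝ) * Real.exp (C₅ * z) ^ KB * |t + x / Λ - t| ≤ B * (1 / p) :=
      mul_le_mul (hKB2.trans hE2) h2 (abs_nonneg _) (by linarith)
    have h6 : B * (1 / p) + 1 / p = (B + 1) / p := by ring
    have h7 := hdiv (B + 1) (by linarith)
    linarith
  -- the fixed point
  obtain ⟨b₀, hb₀def⟩ : ∃ b₀ : ℕ → ℝ, b₀ = D.ab (k + U) (D.cs (k + 3 * U) ω) y := ⟨_, rfl⟩
  have hb₀' : D.ab (k + U) (D.cs (k + 3 * U) ω') y = b₀ := hab.trans hb₀def.symm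
  obtain ⟨Q, hQdef⟩ : ∃ Q : PN, Q = D.P (k + U) (D.c (k + U) ω) n := ⟨_, rfl⟩
  obtain ⟨u, hudef⟩ : ∃ u : ℝ → Fin n → ℝ, u = fun x (i : Fin n) => mot d Φ b₀ Λ t x i :=
    ⟨_, rfl⟩
  obtain ⟨h, hhdef⟩ : ∃ h : ℝ → ℝ, h = fun x => Λ ^ d n * (b₀ n - eval b₀ Q) -
      mot d Φ b₀ Λ t x n := ⟨_, rfl⟩
  have hpw : ∀ i, (2 : ℝ) ^ (d i * ((k + U) * z)) = Λ ^ d i := fun i => by
    rw [hΛdef, pow_mul']
  have ht0 : t + 0 / Λ = t := by rw [zero_div, add_zero]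
  have htS : t + S / Λ = t' := by
    rw [hSdef]
    field_simp
    ring
  -- the two samples
  obtain ⟨-, ⟨-, hown⟩, hcp⟩ := hz₁ J z k κ D q hzz₁ hOk hkM ω hω hJ
  obtain ⟨-, ⟨-, hown'⟩, hcp'⟩ := hz₁ J z k κ D q hzz₁ hOk hkM ω' hω' hJ'
  obtain ⟨hcpT, hcpN⟩ := hcp y hy
  obtain ⟨hcpT', hcpN'⟩ := hcp' y hy
  rw [← hpdef] at hown hown' hcpN hcpN'
  have hThu : ∀ i, |θ i - u 0 i| ≤ ε := fun i => by
    have h1 := hcpT i
    rw [← hpdef, hpw, hRt, ← hb₀def] at h1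
    have h2 : u 0 i = Λ ^ d i * eval b₀ (tinv (adp d (atT t Φ)) i) := by
      rw [hudef]
      simp only [mot, ht0]
    rw [h2]
    exact h1.trans (hdiv _ (by linarith))
  have hThu' : ∀ i, |D.thT K d z C₁ C₂ (k + U) (k + 3 * U) (D.cs (k + 3 * U) ω') y i - u S i| ≤
      ε := fun i => by
    have h1 := hcpT' i
    rw [← hpdef, hpw, hRt', hb₀'] at h1
    have h2 : u S i = Λ ^ d i * eval b₀ (tinv (adp d (atT t' Φ)) i) := by
      rw [hudef]
      simp only [mot, htS]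
    rw [h2]
    exact h1.trans (hdiv _ (by linarith))
  have hShh : |D.shN K d z C₁ C₂ (k + U) (k + 3 * U) (D.cs (k + 3 * U) ω) y - h 0| ≤ ε := by
    have h1 := hcpN
    rw [hpw, hRt, ← hb₀def, ← hQdef] at h1
    have h2 : h 0 = Λ ^ d n * eval b₀ (X n - tinv (adp d (atT t Φ)) n - Q) := by
      rw [hhdef]
      simp only [mot, ht0, map_sub, eval_X]
      ring
    rw [h2]
    exact h1.trans (hdiv _ (by linarith))
  have hShh' : |D.shN K d z C₁ C₂ (k + U) (k + 3 * U) (D.cs (k + 3 * U) ω') y - h S| ≤ ε := by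
    have h1 := hcpN'
    rw [hpw, hRt', hb₀', ← hcl, ← hQdef] at h1
    have h2 : h S = Λ ^ d n * eval b₀ (X n - tinv (adp d (atT t' Φ)) n - Q) := by
      rw [hhdef]
      simp only [mot, htS, map_sub, eval_X]
      ring
    rw [h2]
    exact h1.trans (hdiv _ (by linarith))
  -- bounds
  obtain ⟨hθ1, hsh⟩ := hz₂ z k D (D.cs (k + 3 * U) ω) hzz₂ hkM y (D.pT (k + U) ω) hy fun i => by
    have := (own_bd hC₁ hOk (by omega : k + U ≤ M) hω).1 i
    linarith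
  obtain ⟨hθ1', hsh'⟩ := hz₂ z k D (D.cs (k + 3 * U) ω') hzz₂ hkM y (D.pT (k + U) ω') hy
    fun i => by
      have := (own_bd hC₁ hOk (by omega : k + U ≤ M) hω').1 i
      linarith
  have hpN := (own_bd hC₁ hOk (by omega : k + U ≤ M) hω).2 d rfl
  have hpN' := (own_bd hC₁ hOk (by omega : k + U ≤ M) hω').2 d rfl
  have hθR : ∀ i, |θ i| ≤ R := fun i => (hθ1 i).trans (by linarith)
  have hEp : Real.exp (CC * z) / p ≤ B := by
    refine (div_le_self (Real.exp_pos _).le hp1).trans hEC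
  have hu0R : ∀ i, |u 0 i| ≤ R := fun i => by
    have h1 := hcpT i
    rw [← hpdef, hpw, hRt, ← hb₀def] at h1
    have h2 : u 0 i = Λ ^ d i * eval b₀ (tinv (adp d (atT t Φ)) i) := by
      rw [hudef]
      simp only [mot, ht0]
    rw [← h2] at h1
    have h3 := abs_sub_abs_le_abs_sub (u 0 i) (θ i)
    rw [abs_sub_comm] at h3
    have h4 := hθ1 i
    have h5 : |θ i - u 0 i| ≤ B := h1.trans hEp
    linarith
  have hshb : ∀ (a c₁ c₂ e : ℝ), |a - c₁| ≤ Real.exp (CN * z) * 4 →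
      |c₂ - c₁| ≤ Real.exp (CC * z) / p → |c₂| ≤ Real.exp (C₁ * z) → |a| ≤ 6 * B := by
    intro a c₁ c₂ _ h1 h2 h3
    have h4 := abs_sub_le a c₁ c₂
    have h5 := abs_sub_comm c₁ c₂
    have h6 := abs_sub_abs_le_abs_sub a c₂
    have h7 : |a - c₂| ≤ |a - c₁| + |c₁ - c₂| := h4
    rw [h5] at h7
    linarith
  have hshR : |D.shN K d z C₁ C₂ (k + U) (k + 3 * U) (D.cs (k + 3 * U) ω) y| ≤ R :=
    (hshb _ _ _ 0 hsh hown hpN).trans (by linarith)
  have hshR' : |D.shN K d z C₁ C₂ (k + U) (k + 3 * U) (D.cs (k + 3 * U) ω') y| ≤ R :=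
    (hshb _ _ _ 0 hsh' hown' hpN').trans (by linarith)
  -- the flows
  have hS1 : |(-S)| ≤ 1 := by rwa [abs_neg]
  have hs1' : |(-s)| ≤ 1 := by rwa [abs_neg]
  obtain ⟨f1, f2, f3⟩ := hK4 R ε (-S) hR1 hε0 hS1 ξ b (u 0) θ hξVF hbWH hξR hbR hu0R hθR
    fun i => by rw [abs_sub_comm]; exact hThu i
  obtain ⟨g1, -, -⟩ := hK4 R ε (-s) hR1 hε0 hs1' ξ b θ θ hξVF hbWH hξR hbR hθR hθR
    fun i => by rw [sub_self, abs_zero]; exact hε0
  obtain ⟨e1, e2, -⟩ := hKT R (-S) (-s) hR1 hS1 hs1' ξ b θ hξVF hbWH hξR hbR hθR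
  obtain ⟨-, -, e3⟩ := hKT R (-s) (-s) hR1 hs1' hs1' ξ b θ hξVF hbWH hξR hbR hθR
  have hSs : |(-S) - (-s)| ≤ ε := by
    have : (-S) - (-s) = s - S := by ring
    rw [this]
    exact hrs2
  have hRN : 1 ≤ R ^ N := one_le_pow₀ hR1
  have hRRN : R ≤ R ^ N := by
    have := pow_le_pow_right₀ hR1 (by omega : 1 ≤ N)
    rwa [pow_one] at this
  have hRN0 : 0 ≤ R ^ N := by linarith
  have k4 := kr_le (K := K4) hR1 (by omega : K4 ≤ N)
  have kT := kr_le (K := KT) hR1 (by omega : KT ≤ N)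
  have kZ := kr_le (K := KZ) hR1 (by omega : KZ ≤ N)
  have hNR : (N : ℝ) = KZ + K4 + KT + 2 := by rw [hNdef]; push_cast; ring
  have c4 : (0 : ℝ) ≤ K4 := Nat.cast_nonneg _
  have cT : (0 : ℝ) ≤ KT := Nat.cast_nonneg _
  have cZ : (0 : ℝ) ≤ KZ := Nat.cast_nonneg _
  refine ⟨fun i => ?_, ?_⟩
  · refine le_trans ?_ hfin
    by_cases hε1 : ε ≤ 1
    · obtain ⟨r1, -⟩ := hKZ R ε hR1 hε0 hε1 (fun x i => toF n (fld d (atT (t + x / Λ) Φ) i))
        (fun x => toF n (fld d (atT (t + x / Λ) Φ) n)) ξ b u h S hs1 hξVF hbWH hξR hbR hu0R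
        (fun x hx => ⟨fun i => toF_wh (hfld _ i i.2.le).1 (hfld _ i i.2.le).2, fun i => by
          rw [hξ]
          exact toF_sub_cb (hfld _ i i.2.le).1 (hvfv i i.2.le) (hclo x hx i i.2.le)⟩)
        (fun x hx => ⟨toF_wh (hfld _ n le_rfl).1 (hfld _ n le_rfl).2, by
          rw [hb]
          exact toF_sub_cb (hfld _ n le_rfl).1 (hvfv n le_rfl) (hclo x hx n le_rfl)⟩)
        (fun x _ i => by
          rw [hudef]
          exact mot_deriv hA hO hd0 hd hΦtri b₀ hΛ0 t x i i.2.le)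
        (fun x _ => by
          rw [hudef, hhdef]
          have h1 := (mot_deriv hA hO hd0 hd hΦtri b₀ hΛ0 t x n (le_refl n)).const_sub
            (Λ ^ d n * (b₀ n - eval b₀ Q))
          rwa [neg_neg] at h1)
      have w1 := r1 i
      have w2 := f2 i
      have w3 := e1 i
      have w4 := hThu' i
      have w5 : (KZ : ℝ) * R ^ KZ * ε ≤ KZ * R ^ N * ε := mul_le_mul_of_nonneg_right kZ hε0
      have w6 : (K4 : ℝ) * R ^ K4 * ε ≤ K4 * R ^ N * ε := mul_le_mul_of_nonneg_right k4 hε0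
      have w7 : (KT : ℝ) * R ^ KT * |(-S) - (-s)| ≤ KT * R ^ N * ε :=
        mul_le_mul kT hSs (abs_nonneg _) (by positivity)
      have w8 : ε ≤ R ^ N * ε := le_mul_of_one_le_left hε0 hRN
      have w9 : (N : ℝ) * R ^ N * ε = KZ * R ^ N * ε + K4 * R ^ N * ε + KT * R ^ N * ε +
          2 * (R ^ N * ε) := by
        rw [hNR]
        ring
      have v1 := abs_sub_le (D.thT K d z C₁ C₂ (k + U) (k + 3 * U) (D.cs (k + 3 * U) ω') y i)
        (u S i) (eval θ (flow (fun i : Fin n => d i) ξ (-s) i))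
      have v2 := abs_sub_le (u S i) (eval (u 0) (flow (fun i : Fin n => d i) ξ (-S) i))
        (eval θ (flow (fun i : Fin n => d i) ξ (-s) i))
      have v3 := abs_sub_le (eval (u 0) (flow (fun i : Fin n => d i) ξ (-S) i))
        (eval θ (flow (fun i : Fin n => d i) ξ (-S) i))
        (eval θ (flow (fun i : Fin n => d i) ξ (-s) i))
      linarith
    · have hε1' : 1 ≤ ε := (not_le.1 hε1).le
      have v1 := abs_sub (D.thT K d z C₁ C₂ (k + U) (k + 3 * U) (D.cs (k + 3 * U) ω') y i)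
        (eval θ (flow (fun i : Fin n => d i) ξ (-s) i))
      have v2 := hθ1' i
      have v3 := g1 i
      have v4 : R ^ N * 1 ≤ R ^ N * ε := mul_le_mul_of_nonneg_left hε1' hRN0
      have v5 : (K4 : ℝ) * R ^ N ≤ K4 * R ^ N * ε :=
        le_mul_of_one_le_right (by positivity) hε1'
      have w9 : (N : ℝ) * R ^ N * ε = KZ * R ^ N * ε + K4 * R ^ N * ε + KT * R ^ N * ε +
          2 * (R ^ N * ε) := by
        rw [hNR]
        ring
      have w10 : 0 ≤ (KZ : ℝ) * R ^ N * ε := by positivity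
      have w11 : 0 ≤ (KT : ℝ) * R ^ N * ε := by positivity
      linarith
  · refine le_trans ?_ hfin
    by_cases hε1 : ε ≤ 1
    · obtain ⟨-, r2⟩ := hKZ R ε hR1 hε0 hε1 (fun x i => toF n (fld d (atT (t + x / Λ) Φ) i))
        (fun x => toF n (fld d (atT (t + x / Λ) Φ) n)) ξ b u h S hs1 hξVF hbWH hξR hbR hu0R
        (fun x hx => ⟨fun i => toF_wh (hfld _ i i.2.le).1 (hfld _ i i.2.le).2, fun i => by
          rw [hξ]
          exact toF_sub_cb (hfld _ i i.2.le).1 (hvfv i i.2.le) (hclo x hx i i.2.le)⟩)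
        (fun x hx => ⟨toF_wh (hfld _ n le_rfl).1 (hfld _ n le_rfl).2, by
          rw [hb]
          exact toF_sub_cb (hfld _ n le_rfl).1 (hvfv n le_rfl) (hclo x hx n le_rfl)⟩)
        (fun x _ i => by
          rw [hudef]
          exact mot_deriv hA hO hd0 hd hΦtri b₀ hΛ0 t x i i.2.le)
        (fun x _ => by
          rw [hudef, hhdef]
          have h1 := (mot_deriv hA hO hd0 hd hΦtri b₀ hΛ0 t x n (le_refl n)).const_sub
            (Λ ^ d n * (b₀ n - eval b₀ Q))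
          rwa [neg_neg] at h1)
      have w5 : (KZ : ℝ) * R ^ KZ * ε ≤ KZ * R ^ N * ε := mul_le_mul_of_nonneg_right kZ hε0
      have w6 : (K4 : ℝ) * R ^ K4 * ε ≤ K4 * R ^ N * ε := mul_le_mul_of_nonneg_right k4 hε0
      have w7 : (KT : ℝ) * R ^ KT * |(-S) - (-s)| ≤ KT * R ^ N * ε :=
        mul_le_mul kT hSs (abs_nonneg _) (by positivity)
      have w8 : ε ≤ R ^ N * ε := le_mul_of_one_le_left hε0 hRN
      have w9 : (N : ℝ) * R ^ N * ε = KZ * R ^ N * ε + K4 * R ^ N * ε + KT * R ^ N * ε +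
          2 * (R ^ N * ε) := by
        rw [hNR]
        ring
      rw [abs_le] at hShh hShh' r2 f3 e2 ⊢
      constructor
      · linarith [hShh.1, hShh.2, hShh'.1, hShh'.2, r2.1, r2.2, f3.1, f3.2, e2.1, e2.2]
      · linarith [hShh.1, hShh.2, hShh'.1, hShh'.2, r2.1, r2.2, f3.1, f3.2, e2.1, e2.2]
    · have hε1' : 1 ≤ ε := (not_le.1 hε1).le
      have v4 : R ^ N * 1 ≤ R ^ N * ε := mul_le_mul_of_nonneg_left hε1' hRN0
      have v5 : (KT : ℝ) * R ^ N ≤ KT * R ^ N * ε :=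
        le_mul_of_one_le_right (by positivity) hε1'
      have w9 : (N : ℝ) * R ^ N * ε = KZ * R ^ N * ε + K4 * R ^ N * ε + KT * R ^ N * ε +
          2 * (R ^ N * ε) := by
        rw [hNR]
        ring
      have w10 : 0 ≤ (KZ : ℝ) * R ^ N * ε := by positivity
      have w11 : 0 ≤ (K4 : ℝ) * R ^ N * ε := by positivity
      rw [abs_le] at hshR hshR' e3 ⊢
      constructor
      · linarith [hshR.1, hshR.2, hshR'.1, hshR'.2, e3.1, e3.2]
      · linarith [hshR.1, hshR.2, hshR'.1, hshR'.2, e3.1, e3.2]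

end Pool.STAT
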