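import Pool.Agent.H19.STAT.Sys

/-!
# Layer 2 of the weighted core: polynomials in the first coordinates, rounding

Lemmas on `toF`, on the scaling of weighted homogeneous polynomials, on `rnd`, `vfT`, `vfN`.
-/

set_option autoImplicit false

namespace Pool.STAT.T6

open Finset MvPolynomial Pool.STAT
open Pool.BFL (Pl CB)

variable {n : ℕ}

/-! ### `toF` -/

theorem toF_rename (P : Pl n) : toF n (rename (Fin.val : Fin n → ℕ) P) = P := by
  unfold toF
  rw [aeval_rename]
  have h : ((fun j : ℕ => if h : j < n then (X ⟨j, h⟩ : Pl n) else 0) ∘ (Fin.val : Fin n → ℕ)) =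
      X := by
    funext i
    rw [Function.comp_apply, dif_pos i.2]
  rw [h, aeval_X_left, AlgHom.id_apply]

theorem rename_toF {F : PN} (h : F.vars ⊆ range n) :
    rename (Fin.val : Fin n → ℕ) (toF n F) = F := by
  obtain ⟨P, hP⟩ := exists_rename_eq_of_vars_subset_range F (Fin.val : Fin n → ℕ)
    Fin.val_injective fun j hj => by
      have := mem_range.1 (h (Finset.mem_coe.1 hj))
      exact ⟨⟨j, this⟩, rfl⟩
  rw [← hP, toF_rename]

theorem toF_coeff {F : PN} (h : F.vars ⊆ range n) (e : Fin n →₀ ℕ) :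
    (toF n F).coeff e = F.coeff (e.mapDomain Fin.val) := by
  conv_rhs => rw [← rename_toF h]
  rw [coeff_rename_mapDomain _ Fin.val_injective]

theorem toF_eval {F : PN} (h : F.vars ⊆ range n) (b : ℕ → ℝ) :
    eval (fun i : Fin n => b i) (toF n F) = eval b F := by
  conv_rhs => rw [← rename_toF h]
  rw [eval_rename]
  rfl

theorem weight_val (d : ℕ → ℕ) (e : Fin n →₀ ℕ) :
    Finsupp.weight d (e.mapDomain Fin.val) = Finsupp.weight (fun l : Fin n => d l) e := by
  rw [Finsupp.weight_apply, Finsupp.weight_apply, Finsupp.sum_mapDomain_index]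
  · intro b
    rw [zero_smul]
  · intro b m₁ m₂
    rw [add_smul]

theorem toF_wh {F : PN} (h : F.vars ⊆ range n) {d : ℕ → ℕ} {m : ℕ}
    (hF : F.IsWeightedHomogeneous d m) :
    (toF n F).IsWeightedHomogeneous (fun l : Fin n => d l) m := by
  intro e he
  rw [toF_coeff h] at he
  rw [← weight_val]
  exact hF he

theorem toF_cb {F : PN} (h : F.vars ⊆ range n) {r : ℝ} (hF : ∀ k, |F.coeff k| ≤ r) :
    CB (toF n F) r := fun e => by
  rw [toF_coeff h]
  exact hF _

theorem toF_sub_cb {F G : PN} (h : F.vars ⊆ range n) (h' : G.vars ⊆ range n) {r : ℝ}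
    (hF : ∀ k, |F.coeff k - G.coeff k| ≤ r) : CB (toF n F - toF n G) r := fun e => by
  rw [coeff_sub, toF_coeff h, toF_coeff h']
  exact hF _

/-! ### Norm and scaling -/

theorem coeff_le_nrm (d : ℕ → ℕ) (F : PN) (k : ℕ →₀ ℕ) : |F.coeff k| ≤ nrm d 1 F := by
  unfold nrm
  by_cases hk : k ∈ F.support
  · have h1 : |F.coeff k| * (1 : ℝ) ^ Finsupp.weight d k ≤
        ∑ k ∈ F.support, |F.coeff k| * (1 : ℝ) ^ Finsupp.weight d k :=
      Finset.single_le_sum (f := fun k => |F.coeff k| * (1 : ℝ) ^ Finsupp.weight d k)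
        (fun i _ => by positivity) hk
    rwa [one_pow, mul_one] at h1
  · rw [notMem_support_iff.1 hk, abs_zero]
    exact Finset.sum_nonneg fun i _ => by positivity

theorem coeff_sub_le_nrm (d : ℕ → ℕ) (F G : PN) (k : ℕ →₀ ℕ) :
    |F.coeff k - G.coeff k| ≤ nrm d 1 (F - G) := by
  rw [← coeff_sub]
  exact coeff_le_nrm d _ k

/-- Scaling of weighted homogeneous polynomials. -/
theorem eval_scale {c : ℕ} (d : Fin c → ℕ) (l : ℝ) {P : Pl c} {m : ℕ}
    (hP : P.IsWeightedHomogeneous d m) (u : Fin c → ℝ) :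
    eval (fun i => l ^ d i * u i) P = l ^ m * eval u P := by
  rw [eval_eq', eval_eq', Finset.mul_sum]
  refine Finset.sum_congr rfl fun e he => ?_
  have h1 : (∏ i, (l ^ d i * u i) ^ e i) = l ^ m * ∏ i, u i ^ e i := by
    have h2 : ∀ i, (l ^ d i * u i) ^ e i = l ^ (e i * d i) * u i ^ e i := fun i => by
      rw [mul_pow, ← pow_mul, Nat.mul_comm]
    rw [Finset.prod_congr rfl fun i _ => h2 i, Finset.prod_mul_distrib, Finset.prod_pow_eq_pow_sum]
    congr 2
    rw [← hP (mem_support_iff.1 he), Finsupp.weight_apply, Finsupp.sum_fintype]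
    · exact Finset.sum_congr rfl fun i _ => by rw [smul_eq_mul]
    · intro i
      rw [zero_smul]
  rw [h1]
  ring

/-! ### Rounding -/

theorem rnd_coeff (a S : ℝ) (F : PN) (k : ℕ →₀ ℕ) :
    (rnd a S F).coeff k = if |F.coeff k| ≤ S then (⌊a * F.coeff k⌋ : ℝ) / a else 0 := by
  classical
  unfold rnd
  rw [coeff_sum]
  by_cases hk : k ∈ F.support
  · rw [Finset.sum_eq_single k]
    · rw [coeff_monomial, if_pos rfl]
    · intro j _ hj
      rw [coeff_monomial, if_neg hj]
    · intro h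
      exact absurd hk h
  · have h0 : F.coeff k = 0 := notMem_support_iff.1 hk
    rw [h0, mul_zero, Int.floor_zero, Int.cast_zero, zero_div, ite_self]
    refine Finset.sum_eq_zero fun j hj => ?_
    rw [coeff_monomial, if_neg]
    rintro rfl
    exact hk hj

theorem rnd_close {a S : ℝ} (ha : 0 < a) {F : PN} (hF : ∀ k, |F.coeff k| ≤ S) (k : ℕ →₀ ℕ) :
    |(rnd a S F).coeff k - F.coeff k| ≤ 1 / a := by
  rw [rnd_coeff, if_pos (hF k)]
  have h1 := Int.floor_le (a * F.coeff k)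
  have h2 := Int.lt_floor_add_one (a * F.coeff k)
  have h3 : (⌊a * F.coeff k⌋ : ℝ) / a - F.coeff k = ((⌊a * F.coeff k⌋ : ℝ) - a * F.coeff k) / a := by
    field_simp
  rw [h3, abs_div, abs_of_pos ha]
  refine div_le_div_of_nonneg_right ?_ ha.le
  rw [abs_le]
  constructor <;> linarith

theorem rnd_supp {a S : ℝ} {F : PN} {k : ℕ →₀ ℕ} (h : (rnd a S F).coeff k ≠ 0) :
    F.coeff k ≠ 0 := by
  intro h0
  rw [rnd_coeff, h0, mul_zero, Int.floor_zero, Int.cast_zero, zero_div, ite_self] at h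
  exact h rfl

theorem rnd_wh {a S : ℝ} {F : PN} {d : ℕ → ℕ} {m : ℕ} (hF : F.IsWeightedHomogeneous d m) :
    (rnd a S F).IsWeightedHomogeneous d m := fun _ h => hF (rnd_supp h)

theorem rnd_vars {a S : ℝ} {F : PN} {s : Finset ℕ} (hF : F.vars ⊆ s) :
    (rnd a S F).vars ⊆ s := by
  classical
  intro i hi
  obtain ⟨k, hk, hik⟩ := (mem_vars i).1 hi
  exact hF ((mem_vars i).2 ⟨k, mem_support_iff.2 (rnd_supp (mem_support_iff.1 hk)), hik⟩)

theorem rnd_le {a S : ℝ} (ha : 1 ≤ a) (hS : 0 ≤ S) (F : PN) (k : ℕ →₀ ℕ) :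
    |(rnd a S F).coeff k| ≤ S + 1 := by
  have ha0 : 0 < a := by linarith
  rw [rnd_coeff]
  split_ifs with h
  · have h1 := Int.floor_le (a * F.coeff k)
    have h2 := Int.lt_floor_add_one (a * F.coeff k)
    have h3 : |(⌊a * F.coeff k⌋ : ℝ) / a - F.coeff k| ≤ 1 := by
      have h4 : (⌊a * F.coeff k⌋ : ℝ) / a - F.coeff k =
          ((⌊a * F.coeff k⌋ : ℝ) - a * F.coeff k) / a := by
        field_simp
      rw [h4, abs_div, abs_of_pos ha0, div_le_iff₀ ha0, abs_le]
      constructor <;> linarith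
    have h5 := abs_add_le ((⌊a * F.coeff k⌋ : ℝ) / a - F.coeff k) (F.coeff k)
    rw [sub_add_cancel] at h5
    linarith
  · rw [abs_zero]
    linarith

/-! ### The rounded vector field -/

open Classical in
/-- The conditions of `vfT` hold for a bounded, homogeneous field. -/
theorem vfT_eq {d : ℕ → ℕ} {S : ℝ} {f : ℕ → PN} (hv : ∀ i < n, (f i).vars ⊆ range n)
    (hh : ∀ i < n, (f i).IsWeightedHomogeneous d (d i - 1)) (hS : ∀ i < n, ∀ k, |(f i).coeff k| ≤ S) :
    vfT d n S f = fun i : Fin n => toF n (f i) := by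
  unfold vfT
  rw [if_pos]
  exact fun i => ⟨toF_wh (hv i i.2) (hh i i.2), toF_cb (hv i i.2) (hS i i.2)⟩

open Classical in
theorem vfN_eq {d : ℕ → ℕ} {S : ℝ} {f : ℕ → PN} (hv : (f n).vars ⊆ range n)
    (hh : (f n).IsWeightedHomogeneous d (d n - 1)) (hS : ∀ k, |(f n).coeff k| ≤ S) :
    vfN d n S f = toF n (f n) := by
  unfold vfN
  rw [if_pos]
  exact ⟨toF_wh hv hh, toF_cb hv hS⟩

theorem vfT_vf (d : ℕ → ℕ) (S : ℝ) (f : ℕ → PN) : VF (fun l : Fin n => d l) (vfT d n S f) := by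
  classical
  intro i
  unfold vfT
  split_ifs with h
  · exact (h i).1
  · exact isWeightedHomogeneous_zero _ _ _

theorem vfT_cb (d : ℕ → ℕ) {S : ℝ} (hS : 0 ≤ S) (f : ℕ → PN) (i : Fin n) :
    CB (vfT d n S f i) S := by
  classical
  unfold vfT
  split_ifs with h
  · exact (h i).2
  · intro k
    rw [Pi.zero_apply, coeff_zero, abs_zero]
    exact hS

theorem vfN_wh (d : ℕ → ℕ) (S : ℝ) (f : ℕ → PN) :
    (vfN d n S f).IsWeightedHomogeneous (fun l : Fin n => d l) (d n - 1) := by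
  classical
  unfold vfN
  split_ifs with h
  · exact h.1
  · exact isWeightedHomogeneous_zero _ _ _

theorem vfN_cb (d : ℕ → ℕ) {S : ℝ} (hS : 0 ≤ S) (f : ℕ → PN) : CB (vfN d n S f) S := by
  classical
  unfold vfN
  split_ifs with h
  · exact h.2
  · intro k
    rw [coeff_zero, abs_zero]
    exact hS

end Pool.STAT.T6
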