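import Pool.Agent.H6.STAT.RateC

/-!
# The rates of the rows in a box where the class number is not full

`rate_box`: if the class numbers of the rows of a coordinate have increments at most `1 - a` times the
length, up to `η`, between `A` and `B`, then the rows between `A` and `B` have these rates up to
`η + e`, for all the events of the class with small defect.
-/

set_option autoImplicit false

namespace Pool.GEN.RC6

open Finset Real
open Pool.Agent.H49.Ent Pool.Agent.H32.Dense Pool.STK Pool.KA Pool.K2S Pool.PB Pool.S6C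

/-- Numbers on a mesh, box form. -/
theorem mesh_box {f : ℕ → ℝ} {J : ℕ} (hJ : 0 < J) (hf : ∀ k k', k ≤ k' → k' ≤ J → f k ≤ f k')
    {ρ : ℝ → ℝ} {A B a L h η δ : ℝ} (hδ : 0 < δ) (hL : 0 ≤ L) (hB : B ≤ 1) (ha : 0 ≤ a)
    (ha1 : a ≤ 1) (hη : 0 ≤ η)
    (hρ : ∀ Q₁ Q₂ : ℝ, A ≤ Q₁ → Q₁ ≤ Q₂ → Q₂ ≤ B → ρ Q₂ - ρ Q₁ ≤ (1 - a) * (Q₂ - Q₁) + η)
    {N : ℕ} (hN : B - A ≤ N * δ)
    (hm : ∀ j ≤ N, |f ⌊min (A + j * δ) B * J⌋₊ - ρ (min (A + j * δ) B) * L * J| ≤ h * J)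
    {P Q : ℕ} (hP : (A + δ) * J ≤ P) (hPQ : P ≤ Q) (hQ : (Q : ℝ) ≤ (B - δ) * J) :
    f Q - f P ≤ (1 - a) * (((Q : ℝ) - P) * L) + (2 * δ + η) * L * J + 2 * h * J := by
  have hJR : (0 : ℝ) < J := by exact_mod_cast hJ
  have hPQR : (P : ℝ) ≤ Q := by exact_mod_cast hPQ
  obtain ⟨j, hj⟩ : ∃ j : ℕ, j = ⌊(P / J - A) / δ⌋₊ := ⟨_, rfl⟩
  have hP1 : A + δ ≤ P / J := by rwa [le_div_iff₀ hJR]
  have hQ1 : (Q : ℝ) / J ≤ B - δ := by rwa [div_le_iff₀ hJR]
  have hPQ1 : (P : ℝ) / J ≤ Q / J := div_le_div_of_nonneg_right hPQR hJR.le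
  have hpos : 0 ≤ (P / J - A) / δ := div_nonneg (by linarith) hδ.le
  have hj1 : (j : ℝ) * δ ≤ P / J - A := by
    have := Nat.floor_le hpos
    rw [← hj, le_div_iff₀ hδ] at this
    exact this
  have hj2 : P / J - A < (j + 1) * δ := by
    have := Nat.lt_floor_add_one ((P / J - A) / δ)
    rw [← hj, div_lt_iff₀ hδ] at this
    exact this
  have hjN : j ≤ N := by
    have h2 : (j : ℝ) * δ ≤ N * δ := by linarith
    have h3 := le_of_mul_le_mul_right h2 hδ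
    exact_mod_cast h3
  obtain ⟨i, hi⟩ : ∃ i : ℕ, i = ⌈(Q / J - A) / δ⌉₊ := ⟨_, rfl⟩
  have hi1 : Q / J - A ≤ i * δ := by
    have := Nat.le_ceil ((Q / J - A) / δ)
    rw [← hi, div_le_iff₀ hδ] at this
    exact this
  have hi2 : (i : ℝ) * δ < Q / J - A + δ := by
    have := Nat.ceil_lt_add_one (div_nonneg (by linarith) hδ.le : 0 ≤ (Q / J - A) / δ)
    rw [← hi, ← sub_lt_iff_lt_add, lt_div_iff₀ hδ] at this
    linarith
  have hiN : i ≤ N := by
    have h2 : (i : ℝ) * δ < N * δ := by linarith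
    have h3 := lt_of_mul_lt_mul_right h2 hδ.le
    exact_mod_cast h3.le
  obtain ⟨x, hx⟩ : ∃ x : ℝ, x = A + j * δ := ⟨_, rfl⟩
  obtain ⟨y, hy⟩ : ∃ y : ℝ, y = A + i * δ := ⟨_, rfl⟩
  have hxP : x ≤ P / J := by linarith
  have hxP' : P / J ≤ x + δ := by linarith
  have hyQ : Q / J ≤ y := by linarith
  have hyQ' : y ≤ Q / J + δ := by linarith
  have hx0 : A ≤ x := by
    rw [hx]
    have : 0 ≤ (j : ℝ) * δ := by positivity
    linarith
  have hy1 : y ≤ B := by linarith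
  have hxy : x ≤ y := by linarith
  have hxmin : min (A + j * δ) B = x := by
    rw [hx]
    exact min_eq_left (by linarith)
  have hymin : min (A + i * δ) B = y := by
    rw [hy]
    exact min_eq_left (by linarith)
  have k1 := hm j hjN
  have k2 := hm i hiN
  rw [hxmin] at k1
  rw [hymin] at k2
  have m1 : f ⌊x * J⌋₊ ≤ f P := by
    refine hf _ _ (Nat.floor_le_of_le ?_) ?_
    · rw [← le_div_iff₀ hJR]
      exact hxP
    · have h2 : (Q : ℝ) ≤ 1 * J := hQ.trans (mul_le_mul_of_nonneg_right (by linarith) hJR.le)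
      rw [one_mul] at h2
      have h3 : Q ≤ J := by exact_mod_cast h2
      exact hPQ.trans h3
  have m2 : f Q ≤ f ⌊y * J⌋₊ := by
    refine hf _ _ (Nat.le_floor ?_) (Nat.floor_le_of_le ?_)
    · rw [← div_le_iff₀ hJR]
      exact hyQ
    · calc y * J ≤ 1 * J := mul_le_mul_of_nonneg_right (by linarith) hJR.le
        _ = J := one_mul _
  have n3 := hρ x y hx0 hxy hy1
  have n4 : (1 - a) * (y - x) ≤ (1 - a) * ((Q : ℝ) / J - P / J) + 2 * δ := by
    have h2 : (1 - a) * (y - x - ((Q : ℝ) / J - P / J)) ≤ 1 * (2 * δ) :=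
      mul_le_mul (by linarith) (by linarith) (by linarith) zero_le_one
    linarith
  have hLJ : 0 ≤ L * J := mul_nonneg hL hJR.le
  have n5 := mul_le_mul_of_nonneg_right (n3.trans (by linarith : _ ≤
    (1 - a) * ((Q : ℝ) / J - P / J) + 2 * δ + η)) hLJ
  have n6 : ((1 - a) * ((Q : ℝ) / J - P / J) + 2 * δ + η) * (L * J) =
      (1 - a) * (((Q : ℝ) - P) * L) + (2 * δ + η) * L * J := by
    field_simp
    ring
  rw [n6] at n5
  have k1' := (abs_le.1 k1).1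
  have k2' := (abs_le.1 k2).2
  nlinarith

end Pool.GEN.RC6

namespace Pool.GEN

open Finset Real Filter Topology
open Pool.Agent.H49.Ent Pool.Agent.H32.Dense Pool.STK Pool.KA Pool.K2S Pool.PB Pool.S6C Pool.GEN.RC6

variable {m : ℕ}

/-- **The rates of the rows in a box**, for the members of the class. -/
theorem rate_box {S : PCl m}
    (hpos : ∀ (τ : ℝ) (J : ℕ) (F : Fam m J) (A : F.Ω → Prop), S.St τ J F A → 0 < Pe F.p A)
    {β : ∀ J : ℕ, Fam m J → Type} (Y : ∀ (J : ℕ) (F : Fam m J), F.Ω → β J F) (i₁ : Fin m)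
    {ρ : ℝ → ℝ} (hS : ∀ Q : ℝ, 0 ≤ Q → Q ≤ 1 → ∀ h : ℝ, 0 < h → Bas S (fun J F A =>
      |CH (Pool.Agent.H49.Ent.cond F.p A True) (fun ω => F.X ⌊Q * J⌋₊ ω i₁) (Y J F) -
        ρ Q * Real.log 2 * J| ≤ h * J))
    {A₀ B₀ a η : ℝ} (h0 : 0 ≤ A₀) (hAB : A₀ ≤ B₀) (h1 : B₀ ≤ 1) (ha : 0 ≤ a) (ha1 : a ≤ 1)
    (hη : 0 ≤ η)
    (hρ : ∀ Q₁ Q₂ : ℝ, A₀ ≤ Q₁ → Q₁ ≤ Q₂ → Q₂ ≤ B₀ → ρ Q₂ - ρ Q₁ ≤ (1 - a) * (Q₂ - Q₁) + η)
    {e : ℝ} (he : 0 < e) :
    Bas S (fun J F A =>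
      ∀ P Q : ℕ, (A₀ + e) * J ≤ P → P ≤ Q → (Q : ℝ) ≤ (B₀ - e) * J →
        CH (Pool.Agent.H49.Ent.cond F.p A True) (fun ω => F.X Q ω i₁)
          (fun ω => (F.X P ω i₁, Y J F ω)) ≤
          (1 - a) * (((Q : ℝ) - P) * Real.log 2) + (η + e) * J) := by
  classical
  have hl2 : 0 < Real.log 2 := Real.log_pos one_lt_two
  have hl1 : Real.log 2 ≤ 1 := by
    have := Real.log_two_lt_d9
    linarith
  obtain ⟨δ, hδ⟩ : ∃ δ : ℝ, δ = e / 8 := ⟨_, rfl⟩
  have hδ0 : 0 < δ := by rw [hδ]; positivity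
  obtain ⟨N, hN⟩ : ∃ N : ℕ, N = ⌈(B₀ - A₀) / δ⌉₊ := ⟨_, rfl⟩
  have hN1 : B₀ - A₀ ≤ N * δ := by
    have := Nat.le_ceil ((B₀ - A₀) / δ)
    rwa [← hN, div_le_iff₀ hδ0] at this
  obtain ⟨x, hx⟩ : ∃ x : ℕ → ℝ, x = fun j : ℕ => min (A₀ + j * δ) B₀ := ⟨_, rfl⟩
  have hx0 : ∀ j, 0 ≤ x j := by
    intro j
    rw [hx]
    refine le_min ?_ (h0.trans hAB)
    positivity
  have hx1 : ∀ j, x j ≤ 1 := by
    intro j
    rw [hx]
    exact (min_le_right _ _).trans h1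
  obtain ⟨h, hh⟩ : ∃ h : ℝ, h = e / 8 := ⟨_, rfl⟩
  have hh0 : 0 < h := by rw [hh]; positivity
  have hpos' : Bas S (fun _ F A => 0 < Pe F.p A) :=
    ⟨1, one_pos, 0, fun J _ F A hA => hpos 1 J F A hA⟩
  refine Bas.mono 1 (hpos'.and (Bas.all (N + 1) fun j _ => hS (x j) (hx0 j) (hx1 j) h hh0)) ?_
  intro J hJ F A hA P Q hP hPQ hQ
  obtain ⟨hA0, hA⟩ := hA
  have hq := isLaw_cond F.isLaw hA0
  have hJR : (0 : ℝ) < J := by exact_mod_cast hJ
  obtain ⟨f, hf⟩ : ∃ f : ℕ → ℝ, f = fun k => CH (Pool.Agent.H49.Ent.cond F.p A True)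
    (fun ω => F.X k ω i₁) (Y J F) := ⟨_, rfl⟩
  have hmono : ∀ k k', k ≤ k' → k' ≤ J → f k ≤ f k' := by
    intro k k' hk _
    obtain ⟨n, rfl⟩ := Nat.exists_eq_add_of_le hk
    rw [hf]
    exact (N83.coord_near hq F.x i₁ (Y J F) k n).1
  have key := mesh_box (f := f) (by omega : 0 < J) hmono (ρ := ρ) (A := A₀) (B := B₀) (a := a)
    (L := Real.log 2) (h := h) (η := η) (δ := δ) hδ0 hl2.le h1 ha ha1 hη hρ (N := N) hN1
    (fun j hj => by
      have h3 := hA j (by omega)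
      rw [hx] at h3
      rw [hf]
      exact h3) (P := P) (Q := Q) (by
        refine le_trans (mul_le_mul_of_nonneg_right ?_ hJR.le) hP
        rw [hδ]
        linarith) hPQ (by
        refine hQ.trans (mul_le_mul_of_nonneg_right ?_ hJR.le)
        rw [hδ]
        linarith)
  have h5 : CH (Pool.Agent.H49.Ent.cond F.p A True) (fun ω => F.X Q ω i₁)
      (fun ω => (F.X P ω i₁, Y J F ω)) = f Q - f P := by
    have h6 : Det (Pool.Agent.H49.Ent.cond F.p A True) (fun ω => F.X Q ω i₁)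
        (fun ω => F.X P ω i₁) := by
      intro ω ω' _ _ h7
      exact congrFun (Pool.STK.B58.fl_fine (x := fun _ : Fin 1 => F.x ω i₁)
        (y := fun _ : Fin 1 => F.x ω' i₁) hPQ (funext fun _ => h7)) 0
    have h7 := Pool.K2S.Rows.chain_det hq.nonneg (fun ω => F.X Q ω i₁)
      (fun ω => F.X P ω i₁) (Y J F) h6
    rw [hf]
    simp only
    linarith
  rw [h5]
  refine key.trans ?_
  have h8 : (2 * δ + η) * Real.log 2 * J + 2 * h * J ≤ (η + e) * J := by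
    have h9 : (2 * δ + η) * Real.log 2 ≤ (2 * δ + η) * 1 :=
      mul_le_mul_of_nonneg_left hl1 (by positivity)
    have h10 : (2 * δ + η) + 2 * h ≤ η + e := by
      rw [hδ, hh]
      linarith
    calc (2 * δ + η) * Real.log 2 * J + 2 * h * J ≤ (2 * δ + η) * 1 * J + 2 * h * J := by
          have := mul_le_mul_of_nonneg_right h9 hJR.le
          linarith
      _ = ((2 * δ + η) + 2 * h) * J := by ring
      _ ≤ (η + e) * J := mul_le_mul_of_nonneg_right h10 hJR.le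
  linarith

end Pool.GEN
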