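import Pool.Agent.H63.STAT.Flw4

/-!
# The flow is Lipschitz in the time
-/

set_option autoImplicit false

namespace Pool.STAT.T6

open Finset MvPolynomial Pool.STAT
open Pool.BFL (Pl CB)

/-- Difference quotients of the coefficients. -/
theorem quo_le {s s' : ℝ} (hs : |s| ≤ 1) (hs' : |s'| ≤ 1) (r : ℕ) :
    |(if s = s' then 0 else (s ^ r - s' ^ r) / (r.factorial * (s - s')) : ℝ)| ≤ 1 := by
  split_ifs with h
  · rw [abs_zero]
    exact zero_le_one
  · have h0 : 0 < |s - s'| := abs_pos.2 (sub_ne_zero.2 h)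
    have h1 : |s ^ r - s' ^ r| ≤ r * |s - s'| := by
      have := F4.pow_lip (R := 1) le_rfl hs hs' (le_refl |s - s'|) r
      rwa [one_pow, mul_one] at this
    have h2 : (1 : ℝ) ≤ r.factorial := by
      exact_mod_cast Nat.one_le_iff_ne_zero.2 r.factorial_ne_zero
    have h3 : (r : ℝ) ≤ r.factorial := by exact_mod_cast Nat.self_le_factorial r
    rw [abs_div, abs_mul, abs_of_pos (by linarith : (0 : ℝ) < r.factorial),
      div_le_one (by positivity)]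
    exact h1.trans (mul_le_mul_of_nonneg_right h3 h0.le)

theorem quo_eq (s s' : ℝ) (r : ℕ) : s ^ r / (r.factorial : ℝ) - s' ^ r / (r.factorial : ℝ) =
    (s - s') * (if s = s' then 0 else (s ^ r - s' ^ r) / (r.factorial * (s - s')) : ℝ) := by
  have h2 : (r.factorial : ℝ) ≠ 0 := by exact_mod_cast r.factorial_ne_zero
  split_ifs with h
  · rw [h]
    ring
  · have h0 : s - s' ≠ 0 := sub_ne_zero.2 h
    field_simp

open F4 in
/-- **The flow is Lipschitz in the time.** -/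
theorem flow_time (c j : ℕ) (d : Fin c → ℕ) (hd : ∀ i, 1 ≤ d i) (hj : 1 ≤ j) :
    ∃ K : ℕ, ∀ (R s s' : ℝ), 1 ≤ R → |s| ≤ 1 → |s'| ≤ 1 → ∀ (ξ : Fin c → Pl c) (b : Pl c)
    (u : Fin c → ℝ), VF d ξ → b.IsWeightedHomogeneous d (j - 1) → (∀ i, CB (ξ i) R) → CB b R →
    (∀ i, |u i| ≤ R) →
    (∀ i, |eval u (flow d ξ s i) - eval u (flow d ξ s' i)| ≤ K * R ^ K * |s - s'|) ∧
    |eval u (hfl j ξ b s) - eval u (hfl j ξ b s')| ≤ K * R ^ K * |s - s'| ∧
    |eval u (hfl j ξ b s)| ≤ K * R ^ K := by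
  obtain ⟨D, hD⟩ : ∃ D : ℕ, D = (∑ i, d i) + j + 1 := ⟨_, rfl⟩
  have hdD : ∀ i, d i ≤ D := fun i => by
    have : d i ≤ ∑ i, d i := Finset.single_le_sum (fun _ _ => Nat.zero_le _) (mem_univ i)
    omega
  have hfl : ∀ i : Fin c, ∃ K' : ℕ, ∀ R : ℝ, 1 ≤ R → ∀ (a : ℕ → ℝ), (∀ r, |a r| ≤ 1) →
      ∀ (ξ : Fin c → Pl c) (P : Pl c), (∀ i, PB D R (ξ i)) → PB 1 R P →
      PB K' R (∑ r ∈ range (d i + 1), C (a r) * (lie ξ)^[r] P) := fun i => ser_pb c D 1 (d i + 1)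
  choose Kf hKf using hfl
  obtain ⟨Kh, hKh⟩ := ser_pb c D D j
  obtain ⟨K, hK⟩ : ∃ K : ℕ, K = (∑ i, Kf i) + Kh := ⟨_, rfl⟩
  have hKfK : ∀ i, Kf i ≤ K := fun i => by
    have : Kf i ≤ ∑ i, Kf i := Finset.single_le_sum (fun _ _ => Nat.zero_le _) (mem_univ i)
    omega
  refine ⟨(K + 1) ^ c * (K * K + K) + 2 * K, fun R s s' hR hs hs' ξ b u hξ hb hξR hbR hu => ?_⟩
  have hD1 : (1 : ℝ) ≤ D := by
    have : 1 ≤ D := by omega
    exact_mod_cast this
  have hRD : R ≤ D * R ^ D := by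
    have h1 : R ^ 1 ≤ R ^ D := pow_le_pow_right₀ hR (by omega)
    rw [pow_one] at h1
    have h2 : (0 : ℝ) ≤ R ^ D := by positivity
    nlinarith
  have hξP : ∀ i, PB D R (ξ i) := fun i =>
    ⟨(deg_le hd (hξ i)).trans (by have := hdD i; omega), cb_mono (hξR i) hRD⟩
  have hbP : PB D R b := ⟨(deg_le hd hb).trans (by omega), cb_mono hbR hRD⟩
  have hu0 : ∀ i, |u i - u i| ≤ (0 : ℝ) := fun i => by rw [sub_self, abs_zero]
  have key : ∀ (P Q Q' : Pl c), PB K R P → Q - Q' = C (s - s') * P →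
      |eval u Q - eval u Q'| ≤ (((K + 1) ^ c * (K * K + K) + 2 * K : ℕ) : ℝ) *
        R ^ ((K + 1) ^ c * (K * K + K) + 2 * K) * |s - s'| := by
    intro P Q Q' hP hQ
    rw [← map_sub, hQ, map_mul, eval_C, abs_mul, mul_comm]
    exact mul_le_mul_of_nonneg_right (eval_box hR hP hu hu le_rfl hu0).1 (abs_nonneg _)
  have hpow : ∀ (r : ℕ), |s ^ (r + 1) / ((r + 1).factorial : ℝ)| ≤ 1 := fun r =>
    coef_le hs (r + 1) (r + 1)
  refine ⟨fun i => ?_, ?_, ?_⟩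
  · refine key (∑ r ∈ range (d i + 1), C ((fun r : ℕ => (if s = s' then 0 else
      (s ^ r - s' ^ r) / (r.factorial * (s - s')) : ℝ)) r) * (lie ξ)^[r] (X i)) _ _
      (PB.mono (hKf i R hR _ (fun r => quo_le hs hs' r) ξ (X i) hξP (pb_X hR i)) (hKfK i) hR) ?_
    unfold flow
    rw [← Finset.sum_sub_distrib, Finset.mul_sum]
    refine Finset.sum_congr rfl fun r _ => ?_
    rw [← sub_mul, ← C_sub, quo_eq s s' r, C_mul]
    ring
  · refine key (∑ r ∈ range j, C ((fun r : ℕ => (if s = s' then 0 else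
      (s ^ (r + 1) - s' ^ (r + 1)) / ((r + 1).factorial * (s - s')) : ℝ)) r) * (lie ξ)^[r] b) _ _
      (PB.mono (hKh R hR _ (fun r => quo_le hs hs' (r + 1)) ξ b hξP hbP) (by omega) hR) ?_
    unfold Pool.STAT.hfl
    rw [← Finset.sum_sub_distrib, Finset.mul_sum]
    refine Finset.sum_congr rfl fun r _ => ?_
    rw [← sub_mul, ← C_sub, quo_eq s s' (r + 1), C_mul]
    ring
  · have hH : PB K R (Pool.STAT.hfl j ξ b s) :=
      PB.mono (hKh R hR (fun r => s ^ (r + 1) / ((r + 1).factorial : ℝ)) hpow ξ b hξP hbP)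
        (by omega) hR
    exact (eval_box hR hH hu hu le_rfl hu0).1

end Pool.STAT.T6
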