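import Pool.Agent.H6.STAT.Ratw
import Pool.Agent.H12.STAT.Ent
import Pool.Agent.H31.STAT.MaiwF

/-!
# Row N2 without hypotheses
-/

set_option autoImplicit false

namespace Pool.STAT

/-- **Row N2**: the count from rows which are not full. -/
theorem ucw_full : UcwStmt :=
  ucw_of (ratw_of (entw_of AdxRow.adx_thm dgb_thm lad_thm nat_thm jbw_thm))

end Pool.STAT
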