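import Pool.Agent.H12.STAT.CntS
import Pool.Agent.H74.BFL.UCN

/-!
# Uniform counts on a large event (the count of the static part)

From entropy bounds for the digits of the height given the label and the base, on all large
events, to the pointwise count `NDat.Cnt` at all levels on one large event.
-/

set_option autoImplicit false

namespace Pool.STAT.UC6

open Finset Real
open Pool.Agent.H49.Ent Pool.Agent.H32.Dense Pool.STK Pool.KAL.NC1
open Pool.BFL (floor_coarse isLaw_cond cond_cond unf_ncard Pe_mem)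

/-- Pointwise counts from entropy bounds which start at the row `0`. -/
theorem cnt_zero {Ω Z : Type} [Fintype Ω] {p : Ω → ℝ} (hp : IsLaw p) {A : Ω → Prop}
    (hA : 0 < Pe p A) (z : Ω → Z)
    (hgt : Ω → ℝ) {s k : ℕ} (hs : 0 < s) {c θ κ : ℝ} (hc : 0 ≤ c)
    (hκ : (k + 2) * log (k * s + 4 * k + 8) ≤ κ)
    (hent : ∀ B : Ω → Prop, (∀ ω, B ω → A ω) → exp (-κ) * Pe p A ≤ Pe p B →
      ∀ j, j ≤ k → CH (cond p B True) (fun ω => ⌊(2 : ℝ) ^ (s * j) * hgt ω⌋) z ≤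
          (1 - c) * (s * (j : ℝ)) * log 2 + θ) :
    ∃ B : Ω → Prop, (∀ ω, B ω → A ω) ∧ (∀ ω, B ω → 0 < p ω) ∧ exp (-κ) * Pe p A ≤ Pe p B ∧
      ∀ P : ℕ, P ≤ s * k → ∀ ω, B ω →
        (Set.ncard {r : ℤ | ∃ ω', B ω' ∧ z ω' = z ω ∧
          ⌊hgt ω'⌋ = ⌊hgt ω⌋ ∧ r = ⌊(2 : ℝ) ^ P * hgt ω'⌋} : ℝ) ≤
          exp ((1 - c) * P * log 2 + (θ + 2 * κ + 2 + s * log 2)) := by
  classical
  have hk : (0 : ℝ) ≤ k := Nat.cast_nonneg k
  have hsr : (0 : ℝ) ≤ s := Nat.cast_nonneg s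
  have hl2 : 0 < log 2 := Real.log_pos one_lt_two
  have hl2' : log 2 ≤ 1 := by
    have := Real.log_le_sub_one_of_pos (x := 2) two_pos
    linarith
  have hpA := isLaw_cond hp hA
  set f : ℕ → Ω → Z × ℤ := fun i ω => (z ω, ⌊(2 : ℝ) ^ (s * i) * hgt ω⌋) with hf
  have hnest : ∀ i j, i ≤ j → j ≤ k → ∀ ω ω', f j ω = f j ω' → f i ω = f i ω' := by
    intro i j hij _ ω ω' h
    simp only [hf, Prod.mk.injEq] at h ⊢
    refine ⟨h.1, ?_⟩
    rw [floor_coarse (Nat.mul_le_mul_left s hij), floor_coarse (Nat.mul_le_mul_left s hij) (hgt ω'),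
      h.2]
  have hcard : ∀ ω, (Set.ncard (f k '' {ω' | 0 < cond p A True ω' ∧ f 0 ω' = f 0 ω}) : ℝ) ≤
      exp (s * k * log 2) := by
    intro ω
    have h1 : f k '' {ω' | 0 < cond p A True ω' ∧ f 0 ω' = f 0 ω} ⊆
        (((Finset.Ico (2 ^ (s * k) * ⌊hgt ω⌋) (2 ^ (s * k) * ⌊hgt ω⌋ + 2 ^ (s * k))).image
          (fun r => (z ω, r)) : Finset (Z × ℤ)) : Set (Z × ℤ)) := by
      rintro y ⟨ω', ⟨-, h2⟩, rfl⟩
      simp only [hf, mul_zero, pow_zero, one_mul, Prod.mk.injEq] at h2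
      refine Finset.mem_coe.2 (Finset.mem_image.2 ⟨⌊(2 : ℝ) ^ (s * k) * hgt ω'⌋, ?_, by simp [hf, h2.1]⟩)
      have h3 := floor_coarse (Nat.zero_le (s * k)) (hgt ω')
      rw [pow_zero, one_mul, h2.2, Nat.sub_zero] at h3
      rw [Finset.mem_Ico, h3]
      have h4 : (0 : ℤ) < 2 ^ (s * k) := by positivity
      have h5 := Int.emod_add_mul_ediv ⌊(2 : ℝ) ^ (s * k) * hgt ω'⌋ (2 ^ (s * k))
      have h6 := Int.emod_nonneg ⌊(2 : ℝ) ^ (s * k) * hgt ω'⌋ h4.ne'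
      have h7 := Int.emod_lt_of_pos ⌊(2 : ℝ) ^ (s * k) * hgt ω'⌋ h4
      constructor <;> linarith
    have h2 := Set.ncard_le_ncard h1 (Finset.finite_toSet _)
    rw [Set.ncard_coe_finset] at h2
    have h2 := h2.trans Finset.card_image_le
    rw [Int.card_Ico, add_sub_cancel_left] at h2
    have h3 : ((2 : ℤ) ^ (s * k)).toNat = 2 ^ (s * k) := by
      rw [show ((2 : ℤ) ^ (s * k)) = ((2 ^ (s * k) : ℕ) : ℤ) by push_cast; rfl, Int.toNat_natCast]
    rw [h3] at h2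
    have h4 : exp (s * k * log 2) = (2 ^ (s * k) : ℕ) := by
      rw [mul_comm, Real.exp_mul, Real.exp_log two_pos, ← Nat.cast_mul, Real.rpow_natCast]
      push_cast
      rfl
    rw [h4]
    exact_mod_cast h2
  obtain ⟨B, hB1, hB2, hB3⟩ := unf_ncard hpA k f hnest (Λ := s * k * log 2) (by positivity) hcard
  have hBA : ∀ ω ∈ B, A ω ∧ 0 < p ω := by
    intro ω hω
    obtain ⟨h1, h2⟩ := (cond_pos_iff hp.nonneg _ _ ω).1 (hB1 ω hω)
    exact ⟨by simpa using h2, h1⟩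
  have hD0 : 0 < s * k * log 2 + 4 * k + 8 := by positivity
  have hκ' : (k + 2) * log (s * k * log 2 + 4 * k + 8) ≤ κ := by
    refine le_trans (mul_le_mul_of_nonneg_left (Real.log_le_log hD0 ?_) (by positivity)) hκ
    have : (s : ℝ) * k * log 2 ≤ s * k * 1 := mul_le_mul_of_nonneg_left hl2' (by positivity)
    nlinarith
  have hPB : Pe p (fun ω => ω ∈ B) = Pe p A * ∑ ω ∈ B, cond p A True ω := by
    rw [Pe_mem, Finset.mul_sum]
    refine Finset.sum_congr rfl fun ω hω => ?_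
    unfold Pool.Agent.H49.Ent.cond
    rw [if_pos (eq_true (hBA ω hω).1), ← Pe_eq_law, mul_div_cancel₀ _ hA.ne']
  have hPB' : exp (-κ) * Pe p A ≤ Pe p (fun ω => ω ∈ B) := by
    rw [hPB, mul_comm]
    refine mul_le_mul_of_nonneg_left (le_trans (Real.exp_le_exp.2 (by linarith)) hB2) hA.le
  refine ⟨fun ω => ω ∈ B, fun ω hω => (hBA ω hω).1, fun ω hω => (hBA ω hω).2, hPB', ?_⟩
  intro P h2k ω hω
  exact by
    -- the row of the mesh
    obtain ⟨j, hj1, hj2, hjk⟩ : ∃ j, P ≤ s * j ∧ s * j < P + s ∧ j ≤ k := by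
      refine ⟨(P + (s - 1)) / s, ?_, ?_, ?_⟩
      · have := Nat.lt_mul_div_succ (P + (s - 1)) hs
        rw [Nat.mul_add_one] at this
        omega
      · have := Nat.mul_div_le (P + (s - 1)) s
        omega
      · rw [Nat.div_le_iff_le_mul_add_pred hs]
        have : s * k = k * s := mul_comm _ _
        omega
    have h3 := hB3 0 j (Nat.zero_le _) hjk ω hω
    rw [cond_cond hA fun ω hω => (hBA ω hω).1] at h3
    have h4 := hent (fun ω => ω ∈ B) (fun ω hω => (hBA ω hω).1) hPB' j hjk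
    have hq0 : ∀ ω, 0 ≤ cond p (fun ω => ω ∈ B) True ω := fun ω => cond_nonneg hp.nonneg _ _ ω
    have h5 : CH (cond p (fun ω => ω ∈ B) True) (f j) (f 0) ≤
        CH (cond p (fun ω => ω ∈ B) True) (fun ω => ⌊(2 : ℝ) ^ (s * j) * hgt ω⌋) z := by
      have h6 : CH (cond p (fun ω => ω ∈ B) True) (f j) (f 0) =
          CH (cond p (fun ω => ω ∈ B) True) (fun ω => ⌊(2 : ℝ) ^ (s * j) * hgt ω⌋) (f 0) := by
        refine CH_congr hq0 ?_ ?_ (fun _ _ _ _ h => h) (fun _ _ _ _ h => h)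
        · intro ω ω' _ _ h
          simp only [hf, Prod.mk.injEq] at h
          exact h.1.2
        · intro ω ω' _ _ h
          simp only [hf, Prod.mk.injEq] at h ⊢
          exact ⟨h.2.1, h.1⟩
      rw [h6]
      refine CH_mono_cond hq0 fun ω ω' _ _ h => ?_
      simp only [hf, Prod.mk.injEq] at h
      exact h.1
    have hj' : (P : ℝ) ≤ s * j := by exact_mod_cast hj1
    have hj2' : (s : ℝ) * j < P + s := by exact_mod_cast hj2
    have h6 : (Set.ncard (f j '' {ω' | ω' ∈ B ∧ f 0 ω' = f 0 ω}) : ℝ) ≤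
        exp ((1 - c) * P * log 2 + (θ + 2 * κ + 2 + s * log 2)) := by
      refine h3.trans (Real.exp_le_exp.2 ?_)
      have h7 : (1 - c) * (s * (j : ℝ)) ≤ (1 - c) * P + s := by
        have h8 : 0 ≤ s * (j : ℝ) - P := by linarith
        have h9 : s * (j : ℝ) - P ≤ s := by linarith
        nlinarith
      have h8 := mul_le_mul_of_nonneg_right h7 hl2.le
      rw [add_mul] at h8
      linarith
    refine le_trans ?_ h6
    rw [Nat.cast_le]
    have h7 : {r : ℤ | ∃ ω', (ω' ∈ B) ∧ z ω' = z ω ∧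
        ⌊hgt ω'⌋ = ⌊hgt ω⌋ ∧ r = ⌊(2 : ℝ) ^ P * hgt ω'⌋} ⊆
        (fun y : Z × ℤ => y.2 / 2 ^ (s * j - P)) '' (f j '' {ω' | ω' ∈ B ∧ f 0 ω' = f 0 ω}) := by
      rintro r ⟨ω', h8, h9, h10, rfl⟩
      refine ⟨f j ω', ⟨ω', ⟨h8, ?_⟩, rfl⟩, ?_⟩
      · simp only [hf, Prod.mk.injEq, mul_zero, pow_zero, one_mul]
        exact ⟨h9, h10⟩
      · simp only [hf]
        rw [floor_coarse hj1 (hgt ω')]
    have h8 : (f j '' {ω' | ω' ∈ B ∧ f 0 ω' = f 0 ω}).Finite := Set.toFinite _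
    exact (Set.ncard_le_ncard h7 (h8.image _)).trans (Set.ncard_image_le h8)

end Pool.STAT.UC6

namespace Pool.STAT

open Finset Real
open Pool.Agent.H49.Ent Pool.Agent.H32.Dense Pool.STK Pool.K2S Pool.BFL.Ucn

theorem NCnt_sub {D : NDat} {p : D.Ω → ℝ} (hp : IsLaw p) {d : ℕ → ℕ} {z n v U : ℕ} {ρ a κ : ℝ}
    {B B' : D.Ω → Prop} (hB : Sub B' B)
    (h : D.Cnt d z n v U ρ a κ (Pool.Agent.H49.Ent.cond p B True)) :
    D.Cnt d z n v U ρ a κ (Pool.Agent.H49.Ent.cond p B' True) := by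
  have hc : ∀ ω, 0 < Pool.Agent.H49.Ent.cond p B' True ω →
      0 < Pool.Agent.H49.Ent.cond p B True ω := by
    intro ω hω
    obtain ⟨h1, h2⟩ := (cond_pos_iff hp.nonneg _ _ ω).1 hω
    exact (cond_pos_iff hp.nonneg _ _ ω).2 ⟨h1, eq_true (hB ω (of_eq_true h2))⟩
  intro P hP ω hω
  refine le_trans ?_ (h P hP ω (hc ω hω))
  rw [Nat.cast_le]
  refine Set.ncard_le_ncard ?_ ?_
  · rintro x ⟨ω', h1, h2, h3, h4, h5⟩
    exact ⟨ω', hc ω' h1, h2, h3, h4, h5⟩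
  · refine (Set.finite_range fun ω' => ⌊(2 : ℝ) ^ P * D.pN d z v n ω'⌋).subset ?_
    rintro x ⟨ω', -, -, -, -, rfl⟩
    exact ⟨ω', rfl⟩

/-- **UCW.** Uniform counts on a large event, from entropy bounds for the digits of the height
given the label and the base on all large events. -/
theorem ucw_thm (n : ℕ) (C₃ : ℝ) : ∀ (U M : ℕ) (ρ κ₂ : ℝ), 0 ≤ ρ → 0 < κ₂ → ∃ z₀ : ℕ,
    ∀ (z : ℕ) (D : NDat) (d : ℕ → ℕ) (a : ℝ) (p : D.Ω → ℝ) (A : D.Ω → Prop), z₀ ≤ z →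
      IsLaw p → 0 < Pe p A → 0 ≤ a →
      (∀ B' : D.Ω → Prop, Sub B' A → exp (-(κ₂ * z)) * Pe p A ≤ Pe p B' →
        ∀ k : ℕ, k + 3 * U ≤ M → ∀ P : ℕ, (P : ℝ) ≤ (ρ * U + 1) * z →
        CH (Pool.Agent.H49.Ent.cond p B' True) (fun ω => ⌊(2 : ℝ) ^ P * D.pN d z (k + U) n ω⌋)
          (fun ω => (D.c (k + U) ω,
            fun i : Fin n => ⌊(2 : ℝ) ^ (U * z) * D.pT (k + U) ω i⌋)) ≤
          (1 - a) * P * log 2 + C₃ * z) →
      ∃ B' : D.Ω → Prop, Sub B' A ∧ exp (-(κ₂ * z)) * Pe p A ≤ Pe p B' ∧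
        ∀ k : ℕ, k + 3 * U ≤ M →
          D.Cnt d z n (k + U) U ρ a (C₃ + 6) (Pool.Agent.H49.Ent.cond p B' True) := by
  classical
  intro U M ρ κ₂ hρ hκ₂
  obtain ⟨kc, hkc⟩ : ∃ kc : ℕ, kc = ⌈ρ * U⌉₊ := ⟨_, rfl⟩
  have hkR : (0 : ℝ) ≤ kc := Nat.cast_nonneg kc
  obtain ⟨N, hN⟩ : ∃ N : ℕ, N = M + 2 := ⟨_, rfl⟩
  have hNR : (1 : ℝ) ≤ N := by
    rw [hN]
    push_cast
    have : (0 : ℝ) ≤ M := Nat.cast_nonneg M
    linarith
  obtain ⟨Q, hQ⟩ : ∃ Q : ℝ, Q = 5 * kc + 8 := ⟨_, rfl⟩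
  have hQ1 : 1 ≤ Q := by
    rw [hQ]
    linarith
  have hk2 : (0 : ℝ) < kc + 2 := by positivity
  obtain ⟨ε, hε⟩ : ∃ ε : ℝ, ε = min κ₂ 1 / (N * (kc + 2)) := ⟨_, rfl⟩
  have hm0 : 0 < min κ₂ 1 := lt_min hκ₂ one_pos
  have hN0 : (0 : ℝ) < N := by linarith
  have hε0 : 0 < ε := by
    rw [hε]
    positivity
  obtain ⟨z₁, hz₁⟩ := log_small hQ1 hε0
  refine ⟨max z₁ 1, ?_⟩
  intro z D d a p A hz hp hA ha0 hyp
  have hz1 : z₁ ≤ z := (le_max_left _ _).trans hz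
  have hz2 : 1 ≤ z := (le_max_right _ _).trans hz
  have hzR : (1 : ℝ) ≤ z := by exact_mod_cast hz2
  have hlog := hz₁ z hz1 hz2
  obtain ⟨b, hb⟩ : ∃ b : ℝ, b = (kc + 2) * Real.log (Q * z) := ⟨_, rfl⟩
  have hQz : 1 ≤ Q * z := one_le_mul_of_one_le_of_one_le hQ1 hzR
  have hb0 : 0 ≤ b := by
    rw [hb]
    exact mul_nonneg hk2.le (Real.log_nonneg hQz)
  have hNb : N * b ≤ min κ₂ 1 * z := by
    rw [hb]
    calc (N : ℝ) * ((kc + 2) * Real.log (Q * z)) ≤ N * ((kc + 2) * (ε * z)) := by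
          refine mul_le_mul_of_nonneg_left ?_ (by linarith)
          exact mul_le_mul_of_nonneg_left hlog hk2.le
      _ = min κ₂ 1 * z := by
          rw [hε]
          field_simp
  have hNb1 : N * b ≤ κ₂ * z :=
    hNb.trans (mul_le_mul_of_nonneg_right (min_le_left _ _) (by linarith))
  have hbz : b ≤ z := by
    have h3 : b ≤ N * b := le_mul_of_one_le_left hb0 hNR
    have h4 : min κ₂ 1 * z ≤ 1 * z := mul_le_mul_of_nonneg_right (min_le_right _ _) (by linarith)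
    linarith
  have hPe : ∀ B : D.Ω → Prop, Pool.KAL.NC1.Pe p B = Pe p B :=
    fun B => Pool.KAL.NC1.Pe_eq_law B
  have hl : Real.log 2 ≤ 1 := by
    have := Real.log_two_lt_d9
    linarith
  have hb1 : ((kc : ℝ) + 2) * log (kc * z + 4 * kc + 8) ≤ b := by
    rw [hb]
    refine mul_le_mul_of_nonneg_left (Real.log_le_log (by positivity) ?_) hk2.le
    rw [hQ]
    nlinarith
  obtain ⟨S, hS⟩ : ∃ S : Finset ℕ, S = (range (M + 1)).filter fun k => k + 3 * U ≤ M := ⟨_, rfl⟩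
  have hScard : S.card ≤ N := by
    rw [hS, hN]
    refine (Finset.card_filter_le _ _).trans ?_
    rw [Finset.card_range]
    omega
  have hstep : ∀ k ∈ S, ∀ Bt : D.Ω → Prop, Sub Bt A → ∀ i : ℕ, i < N →
      exp (-(i * b)) * Pe p A ≤ Pe p Bt →
      ∃ B', Sub B' Bt ∧ exp (-b) * Pe p Bt ≤ Pe p B' ∧
        D.Cnt d z n (k + U) U ρ a (C₃ + 6) (Pool.Agent.H49.Ent.cond p B' True) := by
    intro k hk Bt hBt i hi hip
    have hkM : k + 3 * U ≤ M := by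
      rw [hS] at hk
      exact (Finset.mem_filter.1 hk).2
    have hBt0 : 0 < Pe p Bt := lt_of_lt_of_le (mul_pos (exp_pos _) hA) hip
    have hcore := UC6.cnt_zero
      (p := p) hp (A := Bt) (by rw [hPe]; exact hBt0)
      (fun ω => (D.c (k + U) ω, fun i : Fin n => ⌊(2 : ℝ) ^ (U * z) * D.pT (k + U) ω i⌋))
      (fun ω => D.pN d z (k + U) n ω) (s := z) (k := kc) (by omega) (c := a) (θ := C₃ * z)
      (κ := b) ha0 hb1 ?_
    · obtain ⟨B', h1, h2, h3, h4⟩ := hcore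
      refine ⟨B', h1, by rwa [hPe, hPe] at h3, ?_⟩
      intro P hP ω hω
      have hB : ∀ ω, 0 < Pool.Agent.H49.Ent.cond p B' True ω → B' ω := fun ω h => by
        simpa using ((cond_pos_iff hp.nonneg _ _ ω).1 h).2
      have hPk : P ≤ z * kc := by
        have h5 : ρ * U ≤ kc := by
          rw [hkc]
          exact Nat.le_ceil _
        have h6 : (P : ℝ) ≤ z * kc := by
          refine hP.trans ?_
          calc ρ * (U * z) = z * (ρ * U) := by ring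
            _ ≤ z * kc := mul_le_mul_of_nonneg_left h5 (by linarith)
        exact_mod_cast h6
      refine le_trans ?_ ((h4 P hPk ω (hB ω hω)).trans (Real.exp_le_exp.2 ?_))
      · rw [Nat.cast_le]
        refine Set.ncard_le_ncard ?_ ?_
        · rintro r ⟨ω', h5, h6, h7, h8, h9⟩
          exact ⟨ω', hB ω' h5, Prod.ext h6 (funext h7), h8, h9⟩
        · refine (Set.finite_range fun ω' => ⌊(2 : ℝ) ^ P * D.pN d z (k + U) n ω'⌋).subset ?_
          rintro r ⟨ω', -, -, -, rfl⟩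
          exact ⟨ω', rfl⟩
      · have h5 : (z : ℝ) * Real.log 2 ≤ z := by nlinarith
        nlinarith
    · intro B'' hB'' hB''p j hj
      rw [hPe, hPe] at hB''p
      have h1 : exp (-(κ₂ * z)) * Pe p A ≤ Pe p B'' := by
        have h2 := mul_le_mul_of_nonneg_left hip (exp_pos (-b)).le
        refine le_trans ?_ (h2.trans hB''p)
        rw [← mul_assoc, ← Real.exp_add]
        refine mul_le_mul_of_nonneg_right (Real.exp_le_exp.2 ?_) hA.le
        have h3 : ((i : ℝ) + 1) ≤ N := by exact_mod_cast hi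
        have h4 := mul_le_mul_of_nonneg_right h3 hb0
        linarith
      have h5 : ((z * j : ℕ) : ℝ) ≤ (ρ * U + 1) * z := by
        have h6 : (kc : ℝ) ≤ ρ * U + 1 := by
          rw [hkc]
          exact (Nat.ceil_lt_add_one (by positivity)).le
        have h7 : (j : ℝ) ≤ kc := by exact_mod_cast hj
        push_cast
        nlinarith
      have h6 := hyp B'' (fun ω h => hBt ω (hB'' ω h)) h1 k hkM (z * j) h5
      refine h6.trans (le_of_eq ?_)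
      push_cast
      ring
  obtain ⟨B', h1, h2, h3⟩ := iter_ev (p := p) (A := A)
    (fun k B => D.Cnt d z n (k + U) U ρ a (C₃ + 6) (Pool.Agent.H49.Ent.cond p B True))
    (a := b) (N := N) (fun k B B' hB h => NCnt_sub hp hB h) S hstep hScard
  refine ⟨B', h1, ?_, fun k hk => h3 k ?_⟩
  · refine le_trans ?_ h2
    refine mul_le_mul_of_nonneg_right (Real.exp_le_exp.2 ?_) hA.le
    have h4 : (S.card : ℝ) ≤ N := by exact_mod_cast hScard
    have h5 := mul_le_mul_of_nonneg_right h4 hb0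
    linarith
  · rw [hS]
    exact Finset.mem_filter.2 ⟨Finset.mem_range.2 (by omega), hk⟩

/-- More digits cost at most `log 2` each. -/
theorem ch_more {Ω T : Type} [Fintype Ω] {q : Ω → ℝ} (hq : IsLaw q) (x : Ω → ℝ) (W : Ω → T)
    (P j : ℕ) : CH q (fun ω => ⌊(2 : ℝ) ^ (P + j) * x ω⌋) W ≤
      CH q (fun ω => ⌊(2 : ℝ) ^ P * x ω⌋) W + j * Real.log 2 := by
  have h1 := CH_le_add hq.nonneg (fun ω => ⌊(2 : ℝ) ^ (P + j) * x ω⌋)
    (fun ω => ⌊(2 : ℝ) ^ P * x ω⌋) W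
  have h2 := CH_le_card hq.nonneg hq.sum_one (fun ω => ⌊(2 : ℝ) ^ (P + j) * x ω⌋)
    (fun ω => (⌊(2 : ℝ) ^ P * x ω⌋, W ω))
    (fun w => Finset.Ico (2 ^ j * w.1) (2 ^ j * (w.1 + 1)))
    (fun ω _ => Pool.BFL.RAT.floor_mem (x ω) P j)
  have h3 : Ex q (fun ω => Real.log
      (((Finset.Ico (2 ^ j * ⌊(2 : ℝ) ^ P * x ω⌋) (2 ^ j * (⌊(2 : ℝ) ^ P * x ω⌋ + 1))).card : ℕ)
        : ℝ)) = j * Real.log 2 := by
    have h4 : ∀ ω, Real.log
        (((Finset.Ico (2 ^ j * ⌊(2 : ℝ) ^ P * x ω⌋) (2 ^ j * (⌊(2 : ℝ) ^ P * x ω⌋ + 1))).card : ℕ)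
          : ℝ) = j * Real.log 2 := by
      intro ω
      rw [Pool.BFL.RAT.card_blk]
      push_cast
      rw [Real.log_pow]
    unfold Ex
    simp only [h4]
    rw [← Finset.sum_mul, hq.sum_one, one_mul]
  simp only at h2
  rw [h3] at h2
  linarith

/-- **Row (C) of N2.** -/
theorem ucw_of (hR : RatwStmt) : UcwStmt := by
  intro n K d C₁ C₂ a hn hd hd1 hC₁ hC₂ ha0 ha1
  obtain ⟨C₃, ρ, hC₃, hρ, hρ1, hR⟩ := hR n K d C₁ C₂ a hn hd hd1 hC₁ hC₂ ha0 ha1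
  refine ⟨C₃ + 2 + 6, ρ, by linarith, hρ, hρ1, fun U M hU => ?_⟩
  obtain ⟨κ, hκ, z₁, hR⟩ := hR U M hU
  refine ⟨κ, hκ, fun κ₂ hκ₂ => ?_⟩
  obtain ⟨z₂, hz₂⟩ := ucw_thm n (C₃ + 2) U M ρ κ₂ hρ.le hκ₂
  refine ⟨max (max z₁ z₂) 1, ?_⟩
  intro J z D p A 𝒱 Vf tot hz hp hA hyp
  have hz1 : z₁ ≤ z := (le_max_left _ _).trans ((le_max_left _ _).trans hz)
  have hz2 : z₂ ≤ z := (le_max_right _ _).trans ((le_max_left _ _).trans hz)
  have hz3 : 1 ≤ z := (le_max_right _ _).trans hz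
  have hzR : (1 : ℝ) ≤ z := by exact_mod_cast hz3
  have hl : Real.log 2 ≤ 1 := by
    have := Real.log_two_lt_d9
    linarith
  have hl0 : 0 < Real.log 2 := Real.log_pos one_lt_two
  refine hz₂ z D d a p A hz2 hp hA ha0 ?_
  intro B hB hBp k hk P hP
  obtain ⟨hOk, hRow⟩ := hyp B hB hBp
  have hr := hR J z (k + U) D _ 𝒱 Vf tot hz1 hOk (by omega) (by omega) (hRow k hk)
  have hq : IsLaw (Pool.Agent.H49.Ent.cond p B True) := hOk.isLaw
  obtain ⟨P₀, hP₀⟩ : ∃ P₀ : ℕ, P₀ = ⌊ρ * (U * z)⌋₊ := ⟨_, rfl⟩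
  have hu0 : 0 ≤ ρ * ((U : ℝ) * z) := by positivity
  have hP₀1 : (P₀ : ℝ) ≤ ρ * (U * z) := by
    rw [hP₀]
    exact Nat.floor_le hu0
  have hP₀2 : ρ * (U * z) < P₀ + 1 := by
    rw [hP₀]
    exact Nat.lt_floor_add_one _
  rcases le_total P P₀ with h | h
  · have h1 : (P : ℝ) ≤ P₀ := by exact_mod_cast h
    refine (hr P (h1.trans hP₀1)).trans ?_
    nlinarith
  · obtain ⟨j, rfl⟩ := Nat.exists_eq_add_of_le h
    have h1 := ch_more hq (fun ω => D.pN d z (k + U) n ω)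
      (fun ω => (D.c (k + U) ω, (D.bd z U (k + U) ω : Fin n → ℤ))) P₀ j
    have h2 := hr P₀ hP₀1
    have h3 : (j : ℝ) ≤ z + 1 := by
      push_cast at hP
      nlinarith
    have h4 : (j : ℝ) * Real.log 2 ≤ 2 * z := by
      have h5 : (j : ℝ) * Real.log 2 ≤ j * 1 := mul_le_mul_of_nonneg_left hl (Nat.cast_nonneg j)
      linarith
    refine (h1.trans (add_le_add_left h2 _)).trans ?_
    push_cast
    have h5 : 0 ≤ (1 - a) * (j * Real.log 2) :=
      mul_nonneg (by linarith) (by positivity)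
    nlinarith

end Pool.STAT
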