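import Pool.Agent.H12.STAT.CntS
import Pool.Agent.H6.STAT.Ucw

/-!
# Row (B) of N2: the digits of the height given the label and the digits of the base
-/

set_option autoImplicit false

namespace Pool.STAT.RW6

open Finset Real
open Pool.Agent.H49.Ent Pool.Agent.H32.Dense Pool.STK

/-- **Transfer.** `c''` is finer than `c`. -/
theorem transfer {Ω A B H' Γ Γ' : Type} [Fintype Ω] {q : Ω → ℝ} (hq : ∀ ω, 0 ≤ q ω)
    (V : Ω → A) (b : Ω → B) (h : Ω → H') (c : Ω → Γ) (c' : Ω → Γ') (hc : Det q c' c)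
    {X Y R S E : ℝ} (h1 : X ≤ CH q V c') (h2 : CH q b c' ≤ Y)
    (h3 : CH q h (fun ω => (c' ω, b ω)) ≤ R) (h4 : CH q V (fun ω => (c ω, b ω)) ≤ X - Y + S)
    (h5 : CH q h (fun ω => (V ω, (c ω, b ω))) ≤ E) :
    CH q h (fun ω => (c ω, b ω)) ≤ E + R + S := by
  have a1 := CH_le_add hq V b c'
  have a2 := CH_le_add hq V h (fun ω => (b ω, c' ω))
  have a3 : CH q h (fun ω => (b ω, c' ω)) ≤ CH q h (fun ω => (c' ω, b ω)) :=
    CH_mono_cond hq fun ω ω' _ _ e => by
      simp only [Prod.mk.injEq] at e ⊢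
      exact ⟨e.2, e.1⟩
  have a4 : CH q V (fun ω => (h ω, (b ω, c' ω))) ≤ CH q V (fun ω => (h ω, (c ω, b ω))) :=
    CH_mono_cond hq fun ω ω' p1 p2 e => by
      simp only [Prod.mk.injEq] at e ⊢
      exact ⟨e.1, hc ω ω' p1 p2 e.2.2, e.2.1⟩
  have a5 := CH_chain hq V h (fun ω => (c ω, b ω))
  have a6 := CH_chain hq h V (fun ω => (c ω, b ω))
  have a7 : CH q (fun ω => (V ω, h ω)) (fun ω => (c ω, b ω)) =
      CH q (fun ω => (h ω, V ω)) (fun ω => (c ω, b ω)) := by
    refine CH_congr hq ?_ ?_ (fun _ _ _ _ e => e) (fun _ _ _ _ e => e)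
    · intro ω ω' _ _ e
      simp only [Prod.mk.injEq] at e ⊢
      exact ⟨e.1.2, e.1.1⟩
    · intro ω ω' _ _ e
      simp only [Prod.mk.injEq] at e ⊢
      exact ⟨e.1.2, e.1.1⟩
  linarith

/-- The labels are nested. -/
theorem det_c {D : NDat} {n K J z M : ℕ} {σ : ℕ → ℝ} {κ C₁ : ℝ} {q : D.Ω → ℝ}
    (hD : D.Ok n K J z M σ κ C₁ q) {v j : ℕ} (h : v + j ≤ M) : Det q (D.c (v + j)) (D.c v) := by
  induction j with
  | zero => exact fun _ _ _ _ e => e
  | succ j ih =>
    intro ω ω' h1 h2 e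
    exact ih (by omega) ω ω' h1 h2 (hD.c_c (v + j) (by omega) ω ω' h1 h2 e)

/-- Crude bound for the digits of the height. -/
theorem crude {D : NDat} {n K J z M : ℕ} {d : ℕ → ℕ} {κ C₁ : ℝ} {q : D.Ω → ℝ}
    (hD : D.Ok n K J z M (fun i => d i) κ C₁ q) (hC₁ : 0 ≤ C₁) (hz : 1 ≤ z) {v : ℕ} (hv : v ≤ M)
    {T : Type} (W : D.Ω → T) (P : ℕ) :
    CH q (fun ω => ⌊(2 : ℝ) ^ P * D.pN d z v n ω⌋) W ≤ P * Real.log 2 + (C₁ + 4) * z := by
  have hq := hD.isLaw
  have hzR : (1 : ℝ) ≤ z := by exact_mod_cast hz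
  have hl0 : 0 < Real.log 2 := Real.log_pos one_lt_two
  have hl : Real.log 2 ≤ 1 := by
    have := Real.log_two_lt_d9
    linarith
  have hb : ∀ ω, 0 < q ω → |D.pN d z v n ω| ≤ (2 : ℝ) ^ (C₁ * z) := by
    intro ω hω
    have h1 := hD.hgt v hv ω hω n le_rfl
    have h2 := (abs_le.1 (hD.hom v hv n le_rfl)).1
    unfold NDat.pN
    rw [abs_mul, abs_of_pos (by positivity : (0 : ℝ) < 2 ^ (d n * (v * z)))]
    calc (2 : ℝ) ^ (d n * (v * z)) * |D.rh v ω n| ≤ 2 ^ (d n * (v * z)) * (1 / 2 ^ D.g v n) :=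
          mul_le_mul_of_nonneg_left h1 (by positivity)
      _ = (2 : ℝ) ^ (((d n * (v * z) : ℕ) : ℝ) - ((D.g v n : ℕ) : ℝ)) := by
          rw [Real.rpow_sub two_pos, Real.rpow_natCast, Real.rpow_natCast]
          ring
      _ ≤ (2 : ℝ) ^ (C₁ * z) := by
          refine Real.rpow_le_rpow_of_exponent_le one_le_two ?_
          push_cast
          linarith
  have hS : (0 : ℝ) ≤ 2 ^ P * (2 : ℝ) ^ (C₁ * z) := by positivity
  have h1 := CH_le_int hq.nonneg hq.sum_one (fun ω => ⌊(2 : ℝ) ^ P * D.pN d z v n ω⌋) W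
    (fun _ => 2 * (2 ^ P * (2 : ℝ) ^ (C₁ * z)) + 1) (by
      intro ω ω' h2 h3 _
      have a1 := abs_le.1 (hb ω h2)
      have a2 := abs_le.1 (hb ω' h3)
      have hp : (0 : ℝ) < 2 ^ P := by positivity
      have b1 : (2 : ℝ) ^ P * D.pN d z v n ω ≤ 2 ^ P * (2 : ℝ) ^ (C₁ * z) :=
        mul_le_mul_of_nonneg_left a1.2 hp.le
      have b2 : (2 : ℝ) ^ P * D.pN d z v n ω' ≤ 2 ^ P * (2 : ℝ) ^ (C₁ * z) :=
        mul_le_mul_of_nonneg_left a2.2 hp.le
      have b3 : (2 : ℝ) ^ P * (-(2 : ℝ) ^ (C₁ * z)) ≤ 2 ^ P * D.pN d z v n ω :=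
        mul_le_mul_of_nonneg_left a1.1 hp.le
      have b4 : (2 : ℝ) ^ P * (-(2 : ℝ) ^ (C₁ * z)) ≤ 2 ^ P * D.pN d z v n ω' :=
        mul_le_mul_of_nonneg_left a2.1 hp.le
      have c1 := Int.floor_le ((2 : ℝ) ^ P * D.pN d z v n ω)
      have c2 := Int.lt_floor_add_one ((2 : ℝ) ^ P * D.pN d z v n ω)
      have c3 := Int.floor_le ((2 : ℝ) ^ P * D.pN d z v n ω')
      have c4 := Int.lt_floor_add_one ((2 : ℝ) ^ P * D.pN d z v n ω')
      push_cast
      rw [abs_le]
      constructor <;> linarith)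
  refine h1.trans ?_
  unfold Ex
  rw [← Finset.sum_mul, hq.sum_one, one_mul]
  have hS1 : 1 ≤ (2 : ℝ) ^ P * (2 : ℝ) ^ (C₁ * z) :=
    one_le_mul_of_one_le_of_one_le (one_le_pow₀ one_le_two)
      (Real.one_le_rpow one_le_two (by positivity))
  have h2 : Real.log (2 * (2 * (2 ^ P * (2 : ℝ) ^ (C₁ * z)) + 1) + 1) ≤
      Real.log (8 * (2 ^ P * (2 : ℝ) ^ (C₁ * z))) :=
    Real.log_le_log (by positivity) (by linarith)
  have h3 : Real.log (8 * (2 ^ P * (2 : ℝ) ^ (C₁ * z))) =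
      3 * Real.log 2 + (P * Real.log 2 + C₁ * z * Real.log 2) := by
    rw [Real.log_mul (by norm_num) (by positivity), Real.log_mul (by positivity) (by positivity),
      Real.log_pow, Real.log_rpow two_pos]
    have : (8 : ℝ) = 2 ^ 3 := by norm_num
    rw [this, Real.log_pow]
    push_cast
    ring
  have h4 : C₁ * z * Real.log 2 ≤ C₁ * z :=
    mul_le_of_le_one_right (by positivity) hl
  nlinarith

end Pool.STAT.RW6

namespace Pool.STAT

open Finset Real
open Pool.Agent.H49.Ent Pool.Agent.H32.Dense Pool.STK Pool.STAT.RW6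

/-- **Row (B) of N2.** -/
theorem ratw_of (hE : EntwStmt) : RatwStmt := by
  intro n K d C₁ C₂ a hn hd hd1 hC₁ hC₂ ha0 ha1
  obtain ⟨C₃, hC₃, hE⟩ := hE n K d C₁ hn hd hd1 hC₁
  obtain ⟨Dm, hDm1, hDm⟩ : ∃ Dm : ℕ, 1 ≤ Dm ∧ ∀ i ≤ n, d i ≤ Dm :=
    ⟨(range (n + 1)).sup d + 1, by omega, fun i hi =>
      (Finset.le_sup (Finset.mem_range.2 (by omega))).trans (Nat.le_succ _)⟩
  have hDR : (1 : ℝ) ≤ Dm := by exact_mod_cast hDm1
  refine ⟨C₁ + 6 + (2 * n * C₁ + 3 * C₂ + 2 * C₃), 1 / (2 * Dm), ?_, by positivity, ?_, ?_⟩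
  · have : 0 ≤ 2 * (n : ℝ) * C₁ := by positivity
    linarith
  · rw [div_le_one (by positivity)]
    linarith
  intro U M hU
  obtain ⟨κ, hκ, z₁, hE⟩ := hE U M hU
  refine ⟨κ, hκ, max z₁ 1, ?_⟩
  intro J z v D q 𝒱 Vf tot hz hD hv hvM hRow P hP
  exact by
    have hz1 : z₁ ≤ z := (le_max_left _ _).trans hz
    have hz2 : 1 ≤ z := (le_max_right _ _).trans hz
    have hzR : (1 : ℝ) ≤ z := by exact_mod_cast hz2
    have hl0 : 0 < Real.log 2 := Real.log_pos one_lt_two
    have hl : Real.log 2 ≤ 1 := by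
      have := Real.log_two_lt_d9
      linarith
    have hq := hD.isLaw
    have hUR : (1 : ℝ) ≤ U := by exact_mod_cast hU
    have hn0 : 0 ≤ 2 * (n : ℝ) * C₁ := by positivity
    have hPd : (P : ℝ) * (2 * Dm) ≤ U * z := by
      rw [one_div, inv_mul_eq_div, le_div_iff₀ (by positivity)] at hP
      exact hP
    by_cases hU4 : U < 4 * Dm
    · -- few levels
      have h1 := crude hD (by linarith) hz2 (by omega : v ≤ M)
        (fun ω => (D.c v ω, (D.bd z U v ω : Fin n → ℤ))) P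
      have h2 : (P : ℝ) ≤ 2 * z := by
        have h3 : (U : ℝ) ≤ 4 * Dm := by exact_mod_cast hU4.le
        have h4 : (P : ℝ) * (2 * Dm) ≤ 4 * Dm * z :=
          hPd.trans (mul_le_mul_of_nonneg_right h3 (by linarith))
        have h5 : (P : ℝ) * (2 * Dm) ≤ 2 * z * (2 * Dm) := by linarith
        exact le_of_mul_le_mul_right h5 (by positivity)
      have h3 : a * (P * Real.log 2) ≤ 2 * z := by
        have h4 : (P : ℝ) * Real.log 2 ≤ 2 * z := by nlinarith
        have h5 : 0 ≤ (P : ℝ) * Real.log 2 := by positivity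
        nlinarith
      refine h1.trans ?_
      have h6 : 0 ≤ (2 * n * C₁ + 3 * C₂ + 2 * C₃) * (z : ℝ) := by positivity
      nlinarith
    · -- the main case
      have hU4' : 4 * Dm ≤ U := by omega
      have hU4R : (4 : ℝ) * Dm ≤ U := by exact_mod_cast hU4'
      obtain ⟨j, hj⟩ : ∃ j : ℕ, j = P / (2 * z) + 1 := ⟨_, rfl⟩
      have hj1 : P ≤ 2 * j * z := by
        have h1 := Nat.lt_mul_div_succ P (by omega : 0 < 2 * z)
        rw [hj]
        calc P ≤ 2 * z * (P / (2 * z) + 1) := h1.le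
          _ = 2 * (P / (2 * z) + 1) * z := by ring
      have hj2 : 2 * j * Dm ≤ U := by
        have h1 := Nat.div_mul_le_self P (2 * z)
        have h2 : ((P / (2 * z) : ℕ) : ℝ) * (2 * z) ≤ P := by exact_mod_cast h1
        have h3 : ((P / (2 * z) : ℕ) : ℝ) * (2 * z) * (2 * Dm) ≤ U * z :=
          (mul_le_mul_of_nonneg_right h2 (by positivity)).trans hPd
        have h4 : 4 * (((P / (2 * z) : ℕ) : ℝ) * Dm) * z ≤ U * z := by linarith
        have h5 : 4 * (((P / (2 * z) : ℕ) : ℝ) * Dm) ≤ U :=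
          le_of_mul_le_mul_right h4 (by linarith)
        have h6 : (2 : ℝ) * j * Dm ≤ U := by
          rw [hj]
          push_cast
          linarith
        exact_mod_cast h6
      have hjd : ∀ i ≤ n, 2 * j * d i ≤ U := fun i hi =>
        (Nat.mul_le_mul_left (2 * j) (hDm i hi)).trans hj2
      have hjU : 2 * j ≤ U := by
        have := hjd 0 (Nat.zero_le n)
        rwa [hd, mul_one] at this
      have hPU : P ≤ U * z := hj1.trans (Nat.mul_le_mul_right z hjU)
      have hPn : P ≤ d n * (2 * j * z) :=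
        hj1.trans (Nat.le_mul_of_pos_left _ (hd1 n))
      obtain ⟨h2, h3⟩ := hE J z v j D q hz1 hD (by omega) (by omega)
        (fun i hi => hjd i hi.le)
      have h3 := h3 P hPU hPn
      have h1 := hRow.exact (v + 2 * j) (by omega) (by omega) (by omega)
      have h4 := hRow.count
      have h5 := hRow.rate P hPU
      have hdet : Det q (D.c (v + 2 * j)) (D.c v) := det_c hD (by omega)
      have hsum : ∑ i ∈ range n, (D.g (v + 2 * j) i : ℝ) * Real.log 2 +
          ∑ i ∈ range n, ((U : ℝ) - 2 * j * d i) * (z * Real.log 2) ≤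
          ∑ i ∈ range n, ((D.g v i : ℝ) + U * z) * Real.log 2 + 2 * n * C₁ * z := by
        rw [← Finset.sum_add_distrib]
        have h6 : ∀ i ∈ range n, (D.g (v + 2 * j) i : ℝ) * Real.log 2 +
            ((U : ℝ) - 2 * j * d i) * (z * Real.log 2) ≤
            ((D.g v i : ℝ) + U * z) * Real.log 2 + 2 * C₁ * z := by
          intro i hi
          have hi' : i ≤ n := (Finset.mem_range.1 hi).le
          have b1 := (abs_le.1 (hD.hom (v + 2 * j) (by omega) i hi')).2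
          have b2 := (abs_le.1 (hD.hom v (by omega) i hi')).1
          push_cast at b1 b2
          have b3 : (D.g (v + 2 * j) i : ℝ) + ((U : ℝ) - 2 * j * d i) * z ≤
              (D.g v i : ℝ) + U * z + 2 * C₁ * z := by
            have b4 : (d i : ℝ) * ((v + 2 * j) * z) = d i * (v * z) + 2 * j * d i * z := by ring
            linarith
          have b5 := mul_le_mul_of_nonneg_right b3 hl0.le
          have b6 : 2 * C₁ * z * Real.log 2 ≤ 2 * C₁ * z :=
            mul_le_of_le_one_right (by positivity) hl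
          linarith
        refine (Finset.sum_le_sum h6).trans (le_of_eq ?_)
        rw [Finset.sum_add_distrib, Finset.sum_const, Finset.card_range, nsmul_eq_mul]
        ring
      have h7 := transfer hq.nonneg Vf (fun ω => (D.bd z U v ω : Fin n → ℤ))
        (fun ω => ⌊(2 : ℝ) ^ P * D.pN d z v n ω⌋) (D.c v) (D.c (v + 2 * j)) hdet
        (X := tot - ∑ i ∈ range n, (D.g (v + 2 * j) i : ℝ) * Real.log 2 - C₂ * z)
        (Y := ∑ i ∈ range n, ((U : ℝ) - 2 * j * d i) * (z * Real.log 2) + C₃ * z)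
        (R := C₃ * z) (S := (2 * n * C₁ + 2 * C₂ + C₃) * z)
        (E := (1 - a) * (P * Real.log 2) + C₂ * z) h1 h2 h3 (h4.trans (by linarith)) h5
      refine h7.trans ?_
      have h8 : 0 ≤ (C₁ + 6) * (z : ℝ) := by positivity
      linarith

end Pool.STAT
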