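import Pool.Agent.H6.STAT.Ftm
import Pool.Agent.H6.STAT.Tf

/-!
# Layer 2 of the weighted core: row 116 TRP (transport)
-/

set_option autoImplicit false

namespace Pool.STAT.T6

open Finset MvPolynomial Pool.STAT
open Pool.Agent.H49.Ent Pool.Agent.H32.Dense Pool.STK Pool.KS3
open Pool.BFL (Pl CB Pb P2 MC alt)

/-! ### The motion of a fixed point, in scaled coordinates -/

theorem triN_atT {Φ : ℕ → PN} (h : TriN (atT 0 Φ)) (t : ℝ) : TriN (atT t Φ) := by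
  intro i
  by_cases hi : i = 0
  · subst hi
    rw [atT, Function.update_self, vars_C]
    exact Finset.empty_subset _
  · have h1 := h i
    rw [atT, Function.update_of_ne hi] at h1 ⊢
    exact h1

theorem triN_atT_of {Φ : ℕ → PN} (h : TriN Φ) (t : ℝ) : TriN (atT t Φ) := by
  intro i
  by_cases hi : i = 0
  · subst hi
    rw [atT, Function.update_self, vars_C]
    exact Finset.empty_subset _
  · rw [atT, Function.update_of_ne hi]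
    exact h i

/-- The adapted coordinates of the fixed point `b` in units `1 / Λ ^ d i`. -/
noncomputable def mot (d : ℕ → ℕ) (Φ : ℕ → PN) (b : ℕ → ℝ) (Λ t x : ℝ) (i : ℕ) : ℝ :=
  Λ ^ d i * eval b (tinv (adp d (atT (t + x / Λ) Φ)) i)

theorem mot_deriv (hA : AdxStmt) (hO : OdeStmt) {n : ℕ} {d : ℕ → ℕ} (hd0 : d 0 = 1)
    (hd : ∀ i, 1 ≤ d i) {Φ : ℕ → PN} (hΦ : TriN (atT 0 Φ)) (b : ℕ → ℝ) {Λ : ℝ} (hΛ : 0 < Λ)
    (t x : ℝ) (i : ℕ) (hi : i ≤ n) :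
    HasDerivAt (fun x => mot d Φ b Λ t x i)
      (-eval (fun j : Fin n => mot d Φ b Λ t x j) (toF n (fld d (atT (t + x / Λ) Φ) i))) x := by
  obtain ⟨-, -, -, -, -, h6, h7, -⟩ := hA.2 d _ hd0 hd (triN_atT hΦ (t + x / Λ))
  have hv : (fld d (atT (t + x / Λ) Φ) i).vars ⊆ range n :=
    (h6 i).trans (Finset.range_subset_range.2 hi)
  have h1 := (hO d Φ hd0 hd hΦ).2 b (t + x / Λ) i
  have h2 : HasDerivAt (fun x : ℝ => t + x / Λ) (1 / Λ) x :=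
    ((hasDerivAt_id x).div_const Λ).const_add t
  have h3 := (h1.comp x h2).const_mul (Λ ^ d i)
  have h4 : eval (fun j : Fin n => mot d Φ b Λ t x j) (toF n (fld d (atT (t + x / Λ) Φ) i)) =
      Λ ^ (d i - 1) * eval (fun j => eval b (tinv (adp d (atT (t + x / Λ) Φ)) j))
        (fld d (atT (t + x / Λ) Φ) i) := by
    rw [← toF_eval hv fun j => eval b (tinv (adp d (atT (t + x / Λ) Φ)) j)]
    exact eval_scale (fun l : Fin n => d l) Λ (toF_wh hv (h7 i)) _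
  have h5 : Λ ^ d i = Λ ^ (d i - 1) * Λ := by
    rw [← pow_succ]
    congr 1
    have := hd i
    omega
  refine HasDerivAt.congr_deriv h3 ?_
  rw [h4, h5]
  field_simp

/-! ### Natural coordinates -/

theorem nat4 (hN : NatStmt) (n K : ℕ) (d : ℕ → ℕ) (C₁ C₂ : ℝ) (hd0 : d 0 = 1)
    (hd : ∀ i, 1 ≤ d i) (hC₁ : 1 ≤ C₁) (hC₂ : 1 ≤ C₂) :
    ∃ C₃ : ℝ, 1 ≤ C₃ ∧ ∀ U M : ℕ, ∃ z₀ : ℕ, ∀ (z k : ℕ) (D : NDat) (x : ℕ → D.Γ), z₀ ≤ z →
    k + 3 * U ≤ M → ∀ y y' : Fin n → ℝ, (∀ i, |y i| ≤ 2) → (∀ i, |y' i| ≤ 2) →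
    (∀ i, |D.thT K d z C₁ C₂ (k + U) (k + 3 * U) x y i| ≤ Real.exp (C₃ * z)) ∧
    |D.shN K d z C₁ C₂ (k + U) (k + 3 * U) x y -
      D.shN K d z C₁ C₂ (k + U) (k + 3 * U) x y'| ≤ Real.exp (C₃ * z) * 4 := by
  by_cases hn : 1 ≤ n
  · obtain ⟨C₃, h1, h2⟩ := hN n K d C₁ C₂ hn hd0 hd hC₁ hC₂
    refine ⟨C₃, h1, fun U M => ?_⟩
    obtain ⟨z₀, h3⟩ := h2 U M
    refine ⟨z₀, fun z k D x hz hk y y' hy hy' => ?_⟩
    obtain ⟨h4, h5⟩ := h3 z k D x hz hk y y' hy hy'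
    refine ⟨h4, ((h5 4).1 fun i => ?_).2⟩
    have h6 := abs_sub (y i) (y' i)
    have := hy i
    have := hy' i
    linarith
  · have hn0 : n = 0 := by omega
    subst hn0
    refine ⟨1, le_rfl, fun U M => ⟨0, fun z k D x _ _ y y' _ _ => ⟨fun i => i.elim0, ?_⟩⟩⟩
    have : y = y' := Subsingleton.elim _ _
    rw [this, sub_self, abs_zero]
    positivity

/-- Digits of the time. -/
theorem tm_bd {J v T : ℕ} (hv : v ≤ J) :
    ((T / 2 ^ (J - v) : ℕ) : ℝ) ≤ (T : ℝ) / 2 ^ J * 2 ^ v ∧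
      (T : ℝ) / 2 ^ J * 2 ^ v < ((T / 2 ^ (J - v) : ℕ) : ℝ) + 1 := by
  have h1 : (T : ℝ) / 2 ^ J * 2 ^ v = (T : ℝ) / 2 ^ (J - v) := by
    have h2 : (2 : ℝ) ^ J = 2 ^ (J - v) * 2 ^ v := by
      rw [← pow_add]
      congr 1
      omega
    rw [h2]
    field_simp
  have h3 : (0 : ℝ) < 2 ^ (J - v) := by positivity
  have h4 := Nat.div_add_mod T (2 ^ (J - v))
  have h5 : T % 2 ^ (J - v) < 2 ^ (J - v) := Nat.mod_lt _ (by positivity)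
  have h6 : (T : ℝ) = 2 ^ (J - v) * ((T / 2 ^ (J - v) : ℕ) : ℝ) + ((T % 2 ^ (J - v) : ℕ) : ℝ) := by
    exact_mod_cast h4.symm
  have h7 : ((T % 2 ^ (J - v) : ℕ) : ℝ) < 2 ^ (J - v) := by exact_mod_cast h5
  have h8 : (0 : ℝ) ≤ ((T % 2 ^ (J - v) : ℕ) : ℝ) := Nat.cast_nonneg _
  rw [h1]
  constructor
  · rw [le_div_iff₀ h3]
    nlinarith
  · rw [div_lt_iff₀ h3]
    nlinarith

/-- The times of two samples in one window. -/
theorem tm_two {J v w T T' : ℕ} (hv : v ≤ w) (hw : w ≤ J)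
    (h : T / 2 ^ (J - v) = T' / 2 ^ (J - v)) :
    let s : ℝ := ((T' : ℝ) / 2 ^ J - (T : ℝ) / 2 ^ J) * 2 ^ v
    let r : ℝ := ((((T' / 2 ^ (J - w) : ℕ) : ℤ) - ((T / 2 ^ (J - w) : ℕ) : ℤ) : ℤ) : ℝ) /
      2 ^ (w - v)
    |s| ≤ 1 ∧ |r| ≤ 1 ∧ |r - s| ≤ 1 / 2 ^ (w - v) := by
  intro s r
  obtain ⟨a1, a2⟩ := tm_bd (T := T) (hv.trans hw)
  obtain ⟨b1, b2⟩ := tm_bd (T := T') (hv.trans hw)
  obtain ⟨c1, c2⟩ := tm_bd (T := T) hw
  obtain ⟨e1, e2⟩ := tm_bd (T := T') hw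
  rw [← h] at b1 b2
  have hs : |s| < 1 := by
    rw [abs_lt]
    constructor <;> simp only [s] <;> linarith
  obtain ⟨p, hp⟩ : ∃ p : ℝ, p = (2 : ℝ) ^ (w - v) := ⟨_, rfl⟩
  have hp0 : 0 < p := by rw [hp]; positivity
  have hw2 : (2 : ℝ) ^ w = 2 ^ v * p := by
    rw [hp, ← pow_add]
    congr 1
    omega
  obtain ⟨x, hx⟩ : ∃ x : ℕ, x = T / 2 ^ (J - w) := ⟨_, rfl⟩
  obtain ⟨x', hx'⟩ : ∃ x' : ℕ, x' = T' / 2 ^ (J - w) := ⟨_, rfl⟩
  rw [← hx] at c1 c2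
  rw [← hx'] at e1 e2
  have hr : r = ((x' : ℝ) - x) / p := by
    simp only [r]
    rw [← hx, ← hx', hp]
    push_cast
    ring
  have hs2 : s * p = (T' : ℝ) / 2 ^ J * 2 ^ w - (T : ℝ) / 2 ^ J * 2 ^ w := by
    simp only [s]
    rw [hw2]
    ring
  have h1 : |((x' : ℝ) - x) - s * p| < 1 := by
    rw [hs2, abs_lt]
    constructor <;> linarith
  have hrs : |r - s| ≤ 1 / p := by
    have h2 : r - s = (((x' : ℝ) - x) - s * p) / p := by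
      rw [hr]
      field_simp
    rw [h2, abs_div, abs_of_pos hp0]
    exact div_le_div_of_nonneg_right h1.le hp0.le
  refine ⟨hs.le, ?_, by rw [← hp]; exact hrs⟩
  rw [hr, abs_div, abs_of_pos hp0, div_le_one hp0]
  have h3 : |(x' : ℝ) - x| < p + 1 := by
    have h4 : |s * p| ≤ p := by
      rw [abs_mul, abs_of_pos hp0]
      exact mul_le_of_le_one_left hp0.le hs.le
    have h5 := abs_add_le (((x' : ℝ) - x) - s * p) (s * p)
    rw [sub_add_cancel] at h5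
    linarith
  have h6 : (|(x' : ℤ) - x| : ℤ) < 2 ^ (w - v) + 1 := by
    have : ((|(x' : ℤ) - x| : ℤ) : ℝ) < ((2 ^ (w - v) + 1 : ℤ) : ℝ) := by
      push_cast
      rw [← hp]
      exact h3
    exact_mod_cast this
  have h7 : (|(x' : ℤ) - x| : ℤ) ≤ 2 ^ (w - v) := by linarith
  have h8 : ((|(x' : ℤ) - x| : ℤ) : ℝ) ≤ ((2 ^ (w - v) : ℤ) : ℝ) := by exact_mod_cast h7
  push_cast at h8
  rw [hp]
  exact h8

end Pool.STAT.T6
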